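import Mathlib

set_option autoImplicit false

namespace Pool.Agent.H.MP_85b181_al

open scoped Classical
open Finsupp

universe u

/-- bipartite separated graph with classes of at most two edges -/
structure SG (X E L : Type u) where
  cls : E → L
  src : L → X
  r : E → X
  up : X → Bool
  d : L → E
  F : L → Finset E
  memF : ∀ e l, e ∈ F l ↔ cls e = l
  cls_d : ∀ l, cls (d l) = l
  up_src : ∀ l, up (src l) = true
  up_r : ∀ e, up (r e) = false
  card : ∀ l, (F l).card ≤ 2
  inj : ∀ e f, cls e = cls f → r e = r f → e = f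

variable {X E L : Type u} (G : SG X E L)

namespace SG

def ls : E × Bool → X
  | (e, false) => G.src (G.cls e)
  | (e, true) => G.r e

def lt : E × Bool → X
  | (e, false) => G.r e
  | (e, true) => G.src (G.cls e)

def en (v : X) : List (E × Bool) → X
  | [] => v
  | l :: _ => G.lt l

def Bad : E × Bool → List (E × Bool) → Prop
  | (f, false), (e, true) :: _ => G.cls e = G.cls f
  | (f, true), (e, false) :: _ => e = f ∧ f = G.d (G.cls f)
  | _, _ => False

def Val (v : X) : List (E × Bool) → Prop
  | [] => True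
  | l :: w => Val v w ∧ G.en v w = G.ls l ∧ ¬ G.Bad l w

lemma up_lt (l : E × Bool) : G.up (G.lt l) = l.2 := by
  rcases l with ⟨e, _ | _⟩
  · exact G.up_r e
  · exact G.up_src _

lemma up_ls (l : E × Bool) : G.up (G.ls l) = !l.2 := by
  rcases l with ⟨e, _ | _⟩
  · exact G.up_src _
  · exact G.up_r e

lemma par {v : X} {w : List (E × Bool)} (h : G.Val v w) :
    (w.length + (G.up v).toNat + (G.up (G.en v w)).toNat) % 2 = 0 := by
  induction w with
  | nil => simp only [en, List.length_nil]; omega
  | cons l w ih =>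
    have := ih h.1
    rw [h.2.1, up_ls] at this
    simp only [en, up_lt, List.length_cons]
    cases hl : l.2 <;> simp [hl] at this ⊢ <;> omega

abbrev T (E : Type u) := List (E × Bool) →₀ ℚ

noncomputable def act : E × Bool → List (E × Bool) → T E
  | (f, false), (e, true) :: w =>
    if G.cls e = G.cls f then (if e = f then single w 1 else 0)
    else single ((f, false) :: (e, true) :: w) 1
  | (f, true), (e, false) :: w =>
    if e = f ∧ f = G.d (G.cls f) then
      single w 1 - ∑ g ∈ (G.F (G.cls f)).erase f, single ((g, true) :: (g, false) :: w) 1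
    else single ((f, true) :: (e, false) :: w) 1
  | l, w => single (l :: w) 1

lemma act_good {l : E × Bool} {w : List (E × Bool)} (h : ¬ G.Bad l w) :
    G.act l w = single (l :: w) 1 := by
  rcases l with ⟨f, _ | _⟩ <;> rcases w with _ | ⟨⟨e, _ | _⟩, w⟩ <;>
    first | rfl | (simp only [Bad] at h; rw [act, if_neg h])

lemma bad_cases {l : E × Bool} {w : List (E × Bool)} (h : G.Bad l w) :
    (∃ f e w', l = (f, false) ∧ w = (e, true) :: w' ∧ G.cls e = G.cls f ∧
      G.act l w = if e = f then single w' 1 else 0) ∨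
    (∃ f w', l = (f, true) ∧ w = (f, false) :: w' ∧ f = G.d (G.cls f) ∧
      G.act l w = single w' 1 -
        ∑ g ∈ (G.F (G.cls f)).erase f, single ((g, true) :: (g, false) :: w') 1) := by
  rcases l with ⟨f, _ | _⟩ <;> rcases w with _ | ⟨⟨e, _ | _⟩, w⟩ <;> simp only [Bad] at h
  · exact Or.inl ⟨f, e, w, rfl, rfl, h, by simp [act, h]⟩
  · obtain ⟨rfl, h⟩ := h
    exact Or.inr ⟨e, w, rfl, rfl, h, by rw [act, if_pos ⟨rfl, h⟩]⟩

lemma val_sib {v : X} {f g : E} {w : List (E × Bool)} (h : G.Val v ((f, false) :: w))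
    (hg : G.cls g = G.cls f) : G.Val v ((g, false) :: w) := by
  refine ⟨h.1, by rw [h.2.1]; simp [ls, hg], fun hb => h.2.2 ?_⟩
  rcases w with _ | ⟨⟨e, _ | _⟩, w⟩ <;> simp_all [Bad]

lemma val_ud {v : X} {g : E} {w : List (E × Bool)} (h : G.Val v w) (he : G.en v w = G.r g)
    (hg : g ≠ G.d (G.cls g)) : G.Val v ((g, true) :: w) := by
  refine ⟨h, he, fun hb => ?_⟩
  rcases w with _ | ⟨⟨e, _ | _⟩, w⟩ <;> simp_all [Bad]

def Wd (v : X) (m : ℕ) (w : X) (n : ℕ) : Set (List (E × Bool)) :=
  {o | G.Val v o ∧ G.en v o = w ∧ o.length + m ≤ n}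

noncomputable def Sup (v : X) (m : ℕ) (w : X) (n : ℕ) : Submodule ℚ (T E) :=
  supported ℚ ℚ (G.Wd v m w n)

lemma mem_Sup {v : X} {m : ℕ} {w : X} {n : ℕ} {x : T E} :
    x ∈ G.Sup v m w n ↔ ∀ o, o ∉ G.Wd v m w n → x o = 0 := mem_supported' _ _

lemma single_Sup {v : X} {m : ℕ} {w : X} {n : ℕ} {o : List (E × Bool)} (h : o ∈ G.Wd v m w n) :
    single o (1 : ℚ) ∈ G.Sup v m w n := single_mem_supported _ _ h

lemma Sup_ind {v : X} {m : ℕ} {w : X} {n : ℕ} {P : T E → Prop} {x : T E} (hx : x ∈ G.Sup v m w n)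
    (h1 : ∀ o ∈ G.Wd v m w n, P (single o 1)) (h0 : P 0) (ha : ∀ x y, P x → P y → P (x + y))
    (hs : ∀ (c : ℚ) x, P x → P (c • x)) : P x := by
  rw [Sup, supported_eq_span_single] at hx
  induction hx using Submodule.span_induction with
  | mem x h => obtain ⟨o, h, rfl⟩ := h; exact h1 o h
  | zero => exact h0
  | add x y _ _ a b => exact ha _ _ a b
  | smul c x _ a => exact hs _ _ a

lemma act_Sup {v : X} {m n : ℕ} {l : E × Bool} {o : List (E × Bool)}
    (h : o ∈ G.Wd v m (G.ls l) n) : G.act l o ∈ G.Sup v m (G.lt l) (n + 1) := by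
  obtain ⟨h1, h2, h3⟩ := h
  by_cases hb : G.Bad l o
  · rcases G.bad_cases hb with ⟨f, e, w, rfl, rfl, a1, a2⟩ | ⟨f, w, rfl, rfl, a1, a2⟩
    · rw [a2]
      split_ifs with h
      · subst h
        exact G.single_Sup ⟨h1.1, h1.2.1, by simp at h3; omega⟩
      · exact zero_mem _
    · rw [a2]
      refine sub_mem (G.single_Sup ⟨h1.1, h1.2.1, by simp at h3; omega⟩)
        (Submodule.sum_mem _ fun g hg => G.single_Sup ?_)
      rw [Finset.mem_erase, G.memF] at hg
      exact ⟨G.val_ud (G.val_sib h1 hg.2) rfl (by rw [hg.2, ← a1]; exact hg.1),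
        by simp [en, lt, hg.2], by simp at h3 ⊢; omega⟩
  · rw [G.act_good hb]
    exact G.single_Sup ⟨⟨h1, h2, hb⟩, rfl, by simp; omega⟩

noncomputable def ρ (v : X) (l : E × Bool) : Module.End ℚ (T E) :=
  linearCombination ℚ fun o => if G.Val v o ∧ G.en v o = G.ls l then G.act l o else 0

noncomputable def ε (v w : X) : Module.End ℚ (T E) :=
  linearCombination ℚ fun o => if G.Val v o ∧ G.en v o = w then single o 1 else 0

lemma ρ_single (v : X) (l : E × Bool) (o : List (E × Bool)) :
    G.ρ v l (single o 1) = if G.Val v o ∧ G.en v o = G.ls l then G.act l o else 0 := by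
  simp [ρ]

lemma ε_single (v w : X) (o : List (E × Bool)) :
    G.ε v w (single o 1) = if G.Val v o ∧ G.en v o = w then single o 1 else 0 := by
  simp [ε]

lemma ρ_Sup {v : X} {m n : ℕ} {l : E × Bool} {x : T E} (h : x ∈ G.Sup v m (G.ls l) n) :
    G.ρ v l x ∈ G.Sup v m (G.lt l) (n + 1) := by
  refine G.Sup_ind (P := fun x => G.ρ v l x ∈ G.Sup v m (G.lt l) (n + 1)) h ?_ (by simp) ?_ ?_
  · intro o ho
    rw [ρ_single, if_pos ⟨ho.1, ho.2.1⟩]
    exact G.act_Sup ho
  · intro x y a b; rw [map_add]; exact add_mem a b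
  · intro c x a; rw [map_smul]; exact Submodule.smul_mem _ _ a

lemma ε_Sup {v w : X} {m n : ℕ} {x : T E} (h : x ∈ G.Sup v m w n) : G.ε v w x = x := by
  refine G.Sup_ind (P := fun x => G.ε v w x = x) h ?_ (by simp) ?_ ?_
  · intro o ho
    rw [ε_single, if_pos ⟨ho.1, ho.2.1⟩]
  · intro x y a b; rw [map_add, a, b]
  · intro c x a; rw [map_smul, a]

lemma End_ext {f g : Module.End ℚ (T E)} (h : ∀ o, f (single o 1) = g (single o 1)) : f = g :=
  lhom_ext' fun o => LinearMap.ext_ring (h o)

lemma Ca {v : X} {m n : ℕ} {e : E} {x : T E} (h : x ∈ G.Sup v m (G.ls (e, false)) n) (g : E)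
    (o : List (E × Bool)) (ho : o.length + m = n) :
    G.ρ v (e, false) x ((g, false) :: o) =
      if g = e ∧ G.Val v ((g, false) :: o) then x o else 0 := by
  refine G.Sup_ind (P := fun x => G.ρ v (e, false) x ((g, false) :: o) =
      if g = e ∧ G.Val v ((g, false) :: o) then x o else 0) h ?_ (by simp) ?_ ?_
  · intro p hp
    rw [ρ_single, if_pos ⟨hp.1, hp.2.1⟩]
    by_cases hb : G.Bad (e, false) p
    · rcases G.bad_cases hb with ⟨f, e', w, h1, rfl, a1, a2⟩ | ⟨f, w, h1, -⟩
      · have l1 := hp.2.2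
        have n1 : w ≠ (g, false) :: o := by
          rintro rfl; simp at l1; omega
        rw [a2]
        have : (if e' = f then single w (1 : ℚ) else 0 : T E) ((g, false) :: o) = 0 := by
          split_ifs
          · exact single_eq_of_ne' n1
          · rfl
        rw [this]
        split_ifs with h
        · obtain ⟨rfl, h⟩ := h
          refine (single_eq_of_ne' ?_).symm
          rintro rfl
          exact h.2.2 hb
        · rfl
      · simp at h1
    · rw [G.act_good hb]
      by_cases e1 : g = e ∧ p = o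
      · obtain ⟨rfl, rfl⟩ := e1
        rw [if_pos ⟨rfl, hp.1, hp.2.1, hb⟩]; simp
      · rw [single_eq_of_ne' (by simpa [eq_comm] using e1)]
        split_ifs with h
        · exact (single_eq_of_ne' fun e2 => e1 ⟨h.1, e2⟩).symm
        · rfl
  · intro x y a b
    rw [map_add, Finsupp.add_apply, a, b]
    split_ifs <;> simp
  · intro c x a
    rw [map_smul, Finsupp.smul_apply, a]
    split_ifs <;> simp

noncomputable def tl (g e : E) (x : T E) : List (E × Bool) → ℚ
  | (g', false) :: o => if g' = g then x ((e, false) :: o) else 0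
  | _ => 0

lemma Cb {v : X} {m n : ℕ} {e : E} {x : T E} (h : x ∈ G.Sup v m (G.ls (e, true)) n) (g : E)
    (o : List (E × Bool)) (ho : o.length + m = n) :
    G.ρ v (e, true) x ((g, true) :: o) =
      (if g = e ∧ G.Val v ((g, true) :: o) then x o else 0) -
        if e = G.d (G.cls g) ∧ g ≠ e then tl g e x o else 0 := by
  refine G.Sup_ind (P := fun x => G.ρ v (e, true) x ((g, true) :: o) =
      (if g = e ∧ G.Val v ((g, true) :: o) then x o else 0) -
        if e = G.d (G.cls g) ∧ g ≠ e then tl g e x o else 0) h ?_ ?_ ?_ ?_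
  · intro p hp
    rw [ρ_single, if_pos ⟨hp.1, hp.2.1⟩]
    by_cases hb : G.Bad (e, true) p
    · rcases G.bad_cases hb with ⟨f, e', w, h1, -⟩ | ⟨f, w, h1, rfl, a1, a2⟩
      · simp at h1
      · obtain rfl : e = f := by simpa using h1
        have l1 := hp.2.2
        have n1 : w ≠ (g, true) :: o := by
          rintro rfl; simp at l1; omega
        rw [a2, Finsupp.sub_apply, single_eq_of_ne' n1, finsetSum_apply]
        congr 1
        · split_ifs with h
          · obtain ⟨rfl, h⟩ := h
            refine (single_eq_of_ne' ?_).symm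
            rintro rfl
            exact h.2.2 hb
          · rfl
        · by_cases hg : g ∈ (G.F (G.cls e)).erase e
          · rw [Finset.sum_eq_single_of_mem g hg fun b _ hb => single_eq_of_ne' (by simp [hb])]
            rw [Finset.mem_erase, G.memF] at hg
            rw [if_pos ⟨by rw [hg.2]; exact a1, hg.1⟩]
            clear a1 a2 hg hb hp n1 l1 ho h1 h
            rcases o with _ | ⟨⟨g', _ | _⟩, o⟩ <;> simp [tl, single_apply]
            by_cases h1 : g' = g <;> by_cases h2 : w = o <;> simp [h1, h2, Ne.symm]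
          · rw [Finset.sum_eq_zero fun b hb => single_eq_of_ne' (by
              rintro h; obtain rfl : b = g := by simpa using (List.cons.inj h).1
              exact hg hb), if_neg]
            rintro ⟨h1, h2⟩
            exact hg (Finset.mem_erase.2 ⟨h2, (G.memF _ _).2 (by rw [h1, G.cls_d])⟩)
    · rw [G.act_good hb]
      have z : (if e = G.d (G.cls g) ∧ g ≠ e then tl g e (single p 1) o else 0) = 0 := by
        split_ifs with h
        · rcases o with _ | ⟨⟨g', _ | _⟩, o⟩ <;> simp only [tl]
          split_ifs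
          · refine single_eq_of_ne' ?_
            rintro rfl
            exact hb ⟨rfl, by rw [h.1, G.cls_d]⟩
          · rfl
        · rfl
      rw [z, sub_zero]
      by_cases e1 : g = e ∧ p = o
      · obtain ⟨rfl, rfl⟩ := e1
        rw [if_pos ⟨rfl, hp.1, hp.2.1, hb⟩]; simp
      · rw [single_eq_of_ne' (by simpa [eq_comm] using e1)]
        split_ifs with h
        · exact (single_eq_of_ne' fun e2 => e1 ⟨h.1, e2⟩).symm
        · rfl
  · rcases o with _ | ⟨⟨g', _ | _⟩, o⟩ <;> simp [tl]
  · intro x y a b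
    rw [map_add, Finsupp.add_apply, a, b]
    rcases o with _ | ⟨⟨g', _ | _⟩, o⟩ <;> simp only [tl] <;> split_ifs <;> simp <;> ring
  · intro c x a
    rw [map_smul, Finsupp.smul_apply, a]
    rcases o with _ | ⟨⟨g', _ | _⟩, o⟩ <;> simp only [tl] <;> split_ifs <;> simp <;> ring

end SG

end Pool.Agent.H.MP_85b181_al
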