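import Pool.Agent.H.MP_85b181_al.A

set_option autoImplicit false

namespace Pool.Agent.H.MP_85b181_al

open scoped Classical
open Finsupp

universe u v

variable {X E L : Type u}

/-- Cuntz-Krieger family -/
structure CK (G : SG X E L) (A : Type v) [Ring A] where
  π : X → A
  c : E × Bool → A
  ππ : ∀ v, π v * π v = π v
  πc : ∀ l, π (G.lt l) * c l = c l
  cπ : ∀ l, c l * π (G.ls l) = c l
  ab : ∀ e f, G.cls e = G.cls f → c (f, false) * c (e, true) = if e = f then π (G.r e) else 0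
  sum : ∀ l, ∑ e ∈ G.F l, c (e, true) * c (e, false) = π (G.src l)

namespace SG
variable (G : SG X E L)

lemma ρ_good {v : X} {l : E × Bool} {o : List (E × Bool)} (h : G.Val v (l :: o)) :
    G.ρ v l (single o 1) = single (l :: o) 1 := by
  rw [ρ_single, if_pos ⟨h.1, h.2.1⟩, G.act_good h.2.2]

lemma ρ_du {v : X} {e f : E} {o : List (E × Bool)} (h : G.Val v ((e, true) :: o))
    (hc : G.cls e = G.cls f) :
    G.ρ v (f, false) (single ((e, true) :: o) 1) = if e = f then single o 1 else 0 := by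
  rw [ρ_single, if_pos ⟨h, by simp [en, lt, ls, hc]⟩, act, if_pos hc]

noncomputable def model (v : X) : CK G (Module.End ℚ (T E)) where
  π := G.ε v
  c := G.ρ v
  ππ w := End_ext fun o => by
    rw [Module.End.mul_apply, ε_single]
    split_ifs with h
    · rw [ε_single, if_pos h]
    · simp
  πc l := End_ext fun o => by
    rw [Module.End.mul_apply, ρ_single]
    split_ifs with h
    · exact G.ε_Sup (G.act_Sup (m := 0) ⟨h.1, h.2, le_rfl⟩)
    · simp
  cπ l := End_ext fun o => by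
    rw [Module.End.mul_apply, ε_single]
    split_ifs with h
    · rfl
    · rw [ρ_single, if_neg h, map_zero]
  ab e f hc := End_ext fun o => by
    rw [Module.End.mul_apply]
    by_cases h : G.Val v o ∧ G.en v o = G.r e
    · have e1 : (if e = f then G.ε v (G.r e) else 0 : Module.End ℚ (T E)) (single o 1) =
          if e = f then single o 1 else 0 := by
        split_ifs
        · rw [ε_single, if_pos h]
        · rfl
      rw [e1]
      by_cases hb : G.Bad (e, true) o
      · rcases G.bad_cases hb with ⟨f, e', w, h1, -⟩ | ⟨e', w, h1, rfl, a1, a2⟩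
        · simp at h1
        obtain rfl : e = e' := by simpa using h1
        rw [ρ_single, if_pos (show _ ∧ _ = G.ls (e, true) from h), a2, map_sub, map_sum, G.ρ_good (G.val_sib h.1 hc.symm)]
        have : ∀ g ∈ (G.F (G.cls e)).erase e,
            G.ρ v (f, false) (single ((g, true) :: (g, false) :: w) 1) =
              if g = f then single ((f, false) :: w) 1 else 0 := by
          intro g hg
          rw [Finset.mem_erase, G.memF] at hg
          rw [G.ρ_du (G.val_ud (G.val_sib h.1 hg.2) rfl (by rw [hg.2, ← a1]; exact hg.1))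
            (hg.2.trans hc)]
          split_ifs with h
          · rw [h]
          · rfl
        rw [Finset.sum_congr rfl this, Finset.sum_ite_eq']
        by_cases e2 : e = f
        · subst e2; simp
        · rw [if_neg e2, if_pos (Finset.mem_erase.2 ⟨Ne.symm e2, (G.memF _ _).2 hc.symm⟩), sub_self]
      · have : G.Val v ((e, true) :: o) := ⟨h.1, h.2, hb⟩
        rw [G.ρ_good this, G.ρ_du this hc]
    · rw [ρ_single, if_neg (show ¬ (_ ∧ _ = G.ls (e, true)) from h), map_zero]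
      split_ifs
      · rw [ε_single, if_neg h]
      · rfl
  sum l := End_ext fun o => by
    rw [LinearMap.sum_apply, ε_single]
    simp only [Module.End.mul_apply]
    split_ifs with h
    · by_cases hb : G.Bad (G.d l, false) o
      · rcases G.bad_cases hb with ⟨f, g, w, h1, rfl, a1, -⟩ | ⟨e', w, h1, -⟩
        · obtain rfl : G.d l = f := by simpa using h1
          rw [G.cls_d] at a1
          rw [Finset.sum_eq_single_of_mem g ((G.memF _ _).2 a1)]
          · rw [G.ρ_du h.1 rfl, if_pos rfl, G.ρ_good h.1]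
          · intro e he hne
            rw [G.ρ_du h.1 (a1.trans ((G.memF _ _).1 he).symm), if_neg (Ne.symm hne), map_zero]
        · simp at h1
      · have v1 : G.Val v ((G.d l, false) :: o) := ⟨h.1, by simp [ls, G.cls_d, h.2], hb⟩
        rw [← Finset.add_sum_erase _ _ ((G.memF _ _).2 (G.cls_d l)), G.ρ_good v1, ρ_single,
          if_pos ⟨v1, rfl⟩, act, if_pos ⟨rfl, by rw [G.cls_d]⟩, G.cls_d, sub_add, sub_eq_self,
          sub_eq_zero]
        refine Finset.sum_congr rfl fun g hg => ?_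
        rw [Finset.mem_erase, G.memF] at hg
        have v2 := G.val_sib v1 (hg.2.trans (G.cls_d l).symm)
        rw [G.ρ_good v2, G.ρ_good (G.val_ud v2 rfl (by rw [hg.2]; exact hg.1))]
    · refine Finset.sum_eq_zero fun e he => ?_
      rw [G.ρ_single v (e, false), if_neg (by simpa [ls, (G.memF _ _).1 he] using h), map_zero]

end SG

namespace CK
variable {G : SG X E L} {A : Type v} [Ring A] (C : CK G A)

def wd (v : X) : List (E × Bool) → A
  | [] => C.π v
  | l :: o => C.c l * wd v o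

lemma π_wd (v : X) (o : List (E × Bool)) : C.π (G.en v o) * C.wd v o = C.wd v o := by
  cases o with
  | nil => exact C.ππ v
  | cons l o => rw [wd, SG.en, ← mul_assoc, C.πc]

lemma wd_π (v : X) (o : List (E × Bool)) : C.wd v o * C.π v = C.wd v o := by
  induction o with
  | nil => exact C.ππ v
  | cons l o ih => rw [wd, mul_assoc, ih]

lemma model_wd {v : X} {o : List (E × Bool)} (h : G.Val v o) :
    (G.model v).wd v o (single [] 1) = single o 1 := by
  induction o with
  | nil => exact G.ε_Sup (G.single_Sup (m := 0) ⟨trivial, rfl, le_rfl⟩)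
  | cons l o ih => rw [wd, Module.End.mul_apply, ih h.1]; exact G.ρ_good h

variable [Algebra ℚ A]

noncomputable def Φ (v : X) : SG.T E →ₗ[ℚ] A := linearCombination ℚ (C.wd v)

lemma Φ_single (v : X) (o : List (E × Bool)) : C.Φ v (single o 1) = C.wd v o := by simp [Φ]

lemma Φ_ρ {v : X} {m n : ℕ} {l : E × Bool} {x : SG.T E} (h : x ∈ G.Sup v m (G.ls l) n) :
    C.Φ v (G.ρ v l x) = C.c l * C.Φ v x := by
  refine G.Sup_ind (P := fun x => C.Φ v (G.ρ v l x) = C.c l * C.Φ v x) h ?_ (by simp) ?_ ?_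
  · intro o ho
    rw [SG.ρ_single, if_pos ⟨ho.1, ho.2.1⟩, Φ_single]
    by_cases hb : G.Bad l o
    · rcases G.bad_cases hb with ⟨f, e, w, rfl, rfl, a1, a2⟩ | ⟨f, w, rfl, rfl, a1, a2⟩
      · rw [a2, wd, ← mul_assoc, C.ab _ _ a1]
        split_ifs
        · rw [Φ_single, ← show G.en v w = G.r e from ho.1.2.1, π_wd]
        · simp
      · rw [a2, map_sub, map_sum, sub_eq_iff_eq_add]
        simp only [Φ_single, wd, ← mul_assoc]
        rw [← Finset.sum_mul, ← add_mul, Finset.add_sum_erase _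
          (fun g => C.c (g, true) * C.c (g, false)) ((G.memF _ _).2 rfl), C.sum,
          ← show G.en v w = G.src (G.cls f) from ho.1.2.1, π_wd]
    · rw [G.act_good hb, Φ_single, wd]
  · intro x y a b; rw [map_add, map_add, a, b, map_add, mul_add]
  · intro c x a; rw [map_smul, map_smul, a, map_smul, mul_smul_comm]

noncomputable def D (v : X) (m : ℕ) (w : X) (n : ℕ) : Submodule ℚ A := (G.Sup v m w n).map (C.Φ v)

lemma Sup_mono {v : X} {m : ℕ} {w : X} {n n' : ℕ} (h : n ≤ n') : G.Sup v m w n ≤ G.Sup v m w n' :=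
  supported_mono fun _ ho => ⟨ho.1, ho.2.1, ho.2.2.trans h⟩

lemma D_mono {v : X} {m : ℕ} {w : X} {n n' : ℕ} (h : n ≤ n') : C.D v m w n ≤ C.D v m w n' :=
  Submodule.map_mono (Sup_mono h)

lemma D_ind {v : X} {m : ℕ} {w : X} {n : ℕ} {P : A → Prop} {x : A} (hx : x ∈ C.D v m w n)
    (h1 : ∀ o ∈ G.Wd v m w n, P (C.wd v o)) (h0 : P 0) (ha : ∀ x y, P x → P y → P (x + y))
    (hs : ∀ (c : ℚ) x, P x → P (c • x)) : P x := by
  obtain ⟨x, hx, rfl⟩ := hx
  refine G.Sup_ind (P := fun x => P (C.Φ v x)) hx ?_ (by simpa using h0) ?_ ?_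
  · intro o ho; rw [Φ_single]; exact h1 o ho
  · intro x y a b; rw [map_add]; exact ha _ _ a b
  · intro c x a; rw [map_smul]; exact hs _ _ a

lemma wd_D {v : X} {m : ℕ} {w : X} {n : ℕ} {o : List (E × Bool)} (h : o ∈ G.Wd v m w n) :
    C.wd v o ∈ C.D v m w n := ⟨_, G.single_Sup h, C.Φ_single _ _⟩

lemma π_D {v : X} {m n : ℕ} (h : m ≤ n) : C.π v ∈ C.D v m v n :=
  C.wd_D (o := []) ⟨trivial, rfl, by simpa using h⟩

lemma L1 {v : X} {m n : ℕ} {l : E × Bool} {x : A} (h : x ∈ C.D v m (G.ls l) n) :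
    C.c l * x ∈ C.D v m (G.lt l) (n + 1) := by
  obtain ⟨x, hx, rfl⟩ := h
  exact ⟨_, G.ρ_Sup hx, C.Φ_ρ hx⟩

lemma D_π {v : X} {m : ℕ} {w : X} {n : ℕ} {x : A} (h : x ∈ C.D v m w n) :
    C.π w * x = x ∧ x * C.π v = x := by
  refine C.D_ind (P := fun x => C.π w * x = x ∧ x * C.π v = x) h ?_ (by simp) ?_ ?_
  · intro o ho; exact ⟨ho.2.1 ▸ C.π_wd v o, C.wd_π v o⟩
  · intro x y a b; rw [mul_add, add_mul, a.1, a.2, b.1, b.2]; exact ⟨rfl, rfl⟩
  · intro c x a; rw [mul_smul_comm, smul_mul_assoc, a.1, a.2]; exact ⟨rfl, rfl⟩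

lemma D_lt {v : X} {m : ℕ} {w : X} {n : ℕ} {x : A} (h : x ∈ C.D v m w n) (hn : n < m) : x = 0 := by
  refine C.D_ind (P := fun x => x = 0) h ?_ rfl ?_ ?_
  · intro o ho; have := ho.2.2; omega
  · rintro x y rfl rfl; simp
  · rintro c x rfl; simp

lemma D_eq {v : X} {m : ℕ} {w : X} {x : A} (h : x ∈ C.D v m w m) (h0 : x ≠ 0) :
    v = w ∧ ∃ c : ℚ, c ≠ 0 ∧ x = c • C.π v := by
  have : x = 0 ∨ v = w ∧ ∃ c : ℚ, x = c • C.π v := by
    refine C.D_ind (P := fun x => x = 0 ∨ v = w ∧ ∃ c : ℚ, x = c • C.π v) h ?_ (Or.inl rfl) ?_ ?_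
    · intro o ho
      obtain rfl : o = [] := List.length_eq_zero_iff.mp (by have := ho.2.2; omega)
      exact Or.inr ⟨ho.2.1, 1, by simp [wd]⟩
    · rintro x y (rfl | ⟨a, c, rfl⟩) (rfl | ⟨b, d, rfl⟩)
      · simp
      · exact Or.inr ⟨b, d, by simp⟩
      · exact Or.inr ⟨a, c, by simp⟩
      · exact Or.inr ⟨a, c + d, by rw [add_smul]⟩
    · rintro c x (rfl | ⟨a, d, rfl⟩)
      · simp
      · exact Or.inr ⟨a, c * d, by rw [mul_smul]⟩
  obtain ⟨a, c, rfl⟩ := this.resolve_left h0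
  exact ⟨a, c, fun e => h0 (by simp [e]), rfl⟩

lemma D_par {v : X} {m : ℕ} {w : X} {n : ℕ} {x : A} (h : x ∈ C.D v m w (n + 1))
    (hm : (m + (G.up v).toNat) % 2 = 0) (hn : (n + (G.up w).toNat) % 2 = 0) :
    x ∈ C.D v m w n := by
  refine C.D_ind (P := fun x => x ∈ C.D v m w n) h ?_ (zero_mem _) (fun _ _ => add_mem)
    fun c x => Submodule.smul_mem _ c
  intro o ho
  have := G.par ho.1
  rw [ho.2.1] at this
  exact C.wd_D ⟨ho.1, ho.2.1, by have := ho.2.2; omega⟩

lemma D_comp {v : X} {m : ℕ} {w w' : X} {k n : ℕ} {x y : A} (hx : x ∈ C.D v m w k)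
    (hy : y ∈ C.D w k w' n) : y * x ∈ C.D v m w' n := by
  refine C.D_ind (P := fun y => y * x ∈ C.D v m w' n) hy ?_ (by simp) ?_ ?_
  · rintro o ⟨h1, rfl, h3⟩
    refine C.D_mono h3 ?_
    clear h3 hy
    induction o with
    | nil => simpa [wd, (C.D_π hx).1, SG.en] using hx
    | cons l o ih =>
      rw [wd, mul_assoc, List.length_cons, Nat.add_right_comm]
      exact C.L1 (h1.2.1 ▸ ih h1.1)
  · intro x y a b; rw [add_mul]; exact add_mem a b
  · intro c x a; rw [smul_mul_assoc]; exact Submodule.smul_mem _ _ a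

lemma L2 {v : X} {m : ℕ} {w : X} {n : ℕ} {x : A} (h : x ∈ C.D v m w (n + 1)) (hm : m ≤ n) :
    ∃ (s : Finset E) (z : E → A), (∀ e ∉ s, z e = 0) ∧ (∀ e ∈ s, G.lt (e, G.up w) = w) ∧
      (∀ e, z e ∈ C.D v m (G.ls (e, G.up w)) n) ∧
      x - ∑ e ∈ s, C.c (e, G.up w) * z e ∈ C.D v m w n := by
  refine C.D_ind (P := fun x => ∃ (s : Finset E) (z : E → A), (∀ e ∉ s, z e = 0) ∧
      (∀ e ∈ s, G.lt (e, G.up w) = w) ∧ (∀ e, z e ∈ C.D v m (G.ls (e, G.up w)) n) ∧
      x - ∑ e ∈ s, C.c (e, G.up w) * z e ∈ C.D v m w n) h ?_ ⟨∅, 0, by simp⟩ ?_ ?_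
  · rintro (_ | ⟨⟨e, t⟩, o⟩) ⟨h1, h2, h3⟩
    · exact ⟨∅, 0, by simp, by simp, by simp, by simpa using C.wd_D (o := []) ⟨h1, h2, by simpa⟩⟩
    · obtain rfl : t = G.up w := by rw [← h2]; exact (G.up_lt (e, t)).symm
      refine ⟨{e}, Pi.single e (C.wd v o), fun f hf => Pi.single_eq_of_ne (by simpa using hf) _,
        by simpa [SG.en] using h2, fun f => ?_, by simp [wd]⟩
      by_cases hf : f = e
      · subst hf
        rw [Pi.single_eq_same]
        exact C.wd_D ⟨h1.1, h1.2.1, by simp at h3; omega⟩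
      · rw [Pi.single_eq_of_ne hf]; exact zero_mem _
  · rintro x y ⟨s, z, a1, a2, a3, a4⟩ ⟨s', z', b1, b2, b3, b4⟩
    refine ⟨s ∪ s', z + z', fun e he => ?_, fun e he => ?_, fun e => add_mem (a3 e) (b3 e), ?_⟩
    · rw [Finset.mem_union, not_or] at he
      simp [a1 e he.1, b1 e he.2]
    · exact (Finset.mem_union.1 he).elim (a2 e) (b2 e)
    · rw [Finset.sum_subset (s₂ := s ∪ s') Finset.subset_union_left
        fun e _ he => by simp [a1 e he]] at a4
      rw [Finset.sum_subset (s₂ := s ∪ s') Finset.subset_union_right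
        fun e _ he => by simp [b1 e he]] at b4
      have := add_mem a4 b4
      simp only [Pi.add_apply, mul_add, Finset.sum_add_distrib]
      convert this using 1
      abel
  · rintro c x ⟨s, z, a1, a2, a3, a4⟩
    refine ⟨s, c • z, fun e he => by simp [a1 e he], a2,
      fun e => Submodule.smul_mem _ _ (a3 e), ?_⟩
    have := Submodule.smul_mem _ c a4
    simpa [smul_sub, Finset.smul_sum] using this

end CK

end Pool.Agent.H.MP_85b181_al
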