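import Pool.Agent.H.MP_85b181_al.B

set_option autoImplicit false

namespace Pool.Agent.H.MP_85b181_al

open scoped Classical
open Finsupp

universe u v

variable {X E L : Type u}

namespace CK
variable {G : SG X E L} {A : Type v} [Ring A] [Algebra ℚ A] (C : CK G A)

def NF : Prop := ∀ v w n x, x ∈ G.Sup v 0 w n → C.Φ v x = 0 → x = 0

variable {C}

lemma pull (h : C.NF) {v : X} {m : ℕ} {w : X} {n : ℕ} {x : SG.T E} (hx : x ∈ G.Sup v m w (n + 1))
    (h2 : C.Φ v x ∈ C.D v m w n) {o : List (E × Bool)} (ho : o.length + m = n + 1) : x o = 0 := by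
  obtain ⟨y, hy, e⟩ := h2
  have a1 : x - y ∈ G.Sup v 0 w (n + 1) :=
    supported_mono (s := G.Wd v m w (n + 1)) (t := G.Wd v 0 w (n + 1))
      (fun _ ho => ⟨ho.1, ho.2.1, by have := ho.2.2; omega⟩)
      (sub_mem hx (Sup_mono (Nat.le_succ n) hy))
  have := h _ _ _ _ a1 (by rw [map_sub, e, sub_self])
  rw [sub_eq_zero.mp this]
  exact G.mem_Sup.1 hy o fun h => by have := h.2.2; omega

lemma down {v : X} {m : ℕ} {w : X} {n : ℕ} {x : SG.T E} (hx : x ∈ G.Sup v m w (n + 1))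
    (h : ∀ o, G.Val v o → G.en v o = w → o.length + m = n + 1 → x o = 0) : x ∈ G.Sup v m w n := by
  rw [G.mem_Sup] at hx ⊢
  intro o ho
  by_contra hc
  have : o ∈ G.Wd v m w (n + 1) := by_contra fun h => hc (hx o h)
  exact hc (h o this.1 this.2.1 (by
    have := this.2.2
    by_contra hne
    exact ho ⟨‹o ∈ G.Wd v m w (n + 1)›.1, ‹o ∈ G.Wd v m w (n + 1)›.2.1, by omega⟩))

lemma Sup_lt {v : X} {m : ℕ} {w : X} {n : ℕ} {x : SG.T E} (hx : x ∈ G.Sup v m w n) (hn : n < m) :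
    x = 0 := by
  ext o
  exact G.mem_Sup.1 hx o fun h => by have := h.2.2; omega

lemma π_ne (h : C.NF) (v : X) : C.π v ≠ 0 := fun e => by
  have := h v v 0 (single [] 1) (G.single_Sup ⟨trivial, rfl, le_rfl⟩) (by rw [Φ_single]; exact e)
  simp at this

lemma N2 (h : C.NF) {v b : X} {m n : ℕ} {s : Finset E} {Z : E → A} (hs : ∀ g ∈ s, G.r g = b)
    (hZ : ∀ g, Z g ∈ C.D v m (G.ls (g, false)) n)
    (h1 : ∑ g ∈ s, C.c (g, false) * Z g ∈ C.D v m b n) {g e : E} (hg : g ∈ s)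
    (he : G.cls e = G.cls g) : C.c (e, false) * Z g ∈ C.D v m (G.r e) n := by
  choose z z1 z2 using hZ
  have x1 : ∑ g ∈ s, G.ρ v (g, false) (z g) ∈ G.Sup v m b (n + 1) :=
    Submodule.sum_mem _ fun g hg => hs g hg ▸ G.ρ_Sup (z1 g)
  have x2 := fun o => pull h x1 (o := o) (by
    rw [map_sum, Finset.sum_congr rfl fun g _ => by rw [C.Φ_ρ (z1 g), z2]]; exact h1)
  have z3 : z g ∈ G.Sup v m (G.ls (e, false)) n := by simpa [SG.ls, he] using z1 g
  refine ⟨_, down (G.ρ_Sup z3) ?_, by rw [C.Φ_ρ z3, z2]⟩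
  rintro (_ | ⟨⟨f, t⟩, o⟩) o1 o2 o3
  · rw [Sup_lt z3 (by simp at o3; omega)]; simp
  obtain rfl : t = false := by
    have := G.up_lt (f, t)
    rw [show G.lt (f, t) = G.r e from o2, G.up_r] at this
    exact this.symm
  have o4 : o.length + m = n := by simp at o3; omega
  rw [G.Ca z3 f o o4]
  split_ifs with hh
  · obtain ⟨rfl, hh⟩ := hh
    have := x2 ((g, false) :: o) o3
    rw [finsetSum_apply, Finset.sum_eq_single_of_mem g hg fun b _ hb => by
      rw [G.Ca (z1 b) g o o4, if_neg fun h => hb h.1.symm], G.Ca (z1 g) g o o4,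
      if_pos ⟨rfl, G.val_sib hh he.symm⟩] at this
    exact this
  · rfl

lemma N3 (h : C.NF) {v : X} {m n : ℕ} {s : Finset E} {W : E → A} {e : E}
    (hs : ∀ g ∈ s, G.src (G.cls g) = G.src (G.cls e) ∧ G.cls g ≠ G.cls e)
    (hW : ∀ g, W g ∈ C.D v m (G.ls (g, true)) n)
    (h1 : C.c (e, false) * ∑ g ∈ s, C.c (g, true) * W g ∈ C.D v m (G.r e) (n + 1)) :
    ∑ g ∈ s, C.c (g, true) * W g ∈ C.D v m (G.src (G.cls e)) n := by
  choose z z1 z2 using hW
  have x1 : ∑ g ∈ s, G.ρ v (g, true) (z g) ∈ G.Sup v m (G.ls (e, false)) (n + 1) :=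
    Submodule.sum_mem _ fun g hg => by
      have := G.ρ_Sup (z1 g)
      rwa [show G.lt (g, true) = G.ls (e, false) from (hs g hg).1] at this
  have x0 : C.Φ v (∑ g ∈ s, G.ρ v (g, true) (z g)) = ∑ g ∈ s, C.c (g, true) * W g := by
    rw [map_sum, Finset.sum_congr rfl fun g _ => by rw [C.Φ_ρ (z1 g), z2]]
  have x2 := fun o => pull h (G.ρ_Sup x1) (o := o) (by rw [C.Φ_ρ x1, x0]; exact h1)
  refine ⟨_, down x1 ?_, x0⟩
  intro o o1 o2 o3
  by_cases hb : G.Bad (e, false) o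
  · rcases G.bad_cases hb with ⟨f, g, w, a1, rfl, a2, -⟩ | ⟨f, w, a1, -⟩
    · obtain rfl : e = f := by simpa using a1
      rw [finsetSum_apply]
      refine Finset.sum_eq_zero fun b hb => ?_
      rw [G.Cb (z1 b) g w (by simp at o3; omega), if_neg, if_neg, sub_zero]
      · rintro ⟨a3, -⟩
        exact (hs b hb).2 (by rw [a3, G.cls_d, a2])
      · rintro ⟨rfl, -⟩
        exact (hs g hb).2 a2
    · simp at a1
  · have := x2 ((e, false) :: o) (by simp; omega)
    rwa [G.Ca x1 e o o3, if_pos ⟨rfl, o1, o2, hb⟩] at this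

lemma N1 (h : C.NF) {v a : X} {m k : ℕ} {s : Finset E} {W : E → A} (h0 : ∀ g ∉ s, W g = 0)
    (hs : ∀ g ∈ s, G.src (G.cls g) = a) (hW : ∀ g, W g ∈ C.D v m (G.ls (g, true)) (k + 1))
    (h1 : ∑ g ∈ s, C.c (g, true) * W g ∈ C.D v m a (k + 1)) (l : L) :
    ∃ u ∈ C.D v m (G.src l) k, ∀ e, G.cls e = l → W e - C.c (e, false) * u ∈ C.D v m (G.r e) k := by
  obtain ⟨z, z0, z1, z2⟩ : ∃ z : E → SG.T E, (∀ g ∉ s, z g = 0) ∧
      (∀ g, z g ∈ G.Sup v m (G.ls (g, true)) (k + 1)) ∧ ∀ g, C.Φ v (z g) = W g := by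
    choose z z1 z2 using hW
    refine ⟨fun g => if g ∈ s then z g else 0, fun g hg => if_neg hg, fun g => ?_, fun g => ?_⟩
    · dsimp only
      split_ifs
      · exact z1 g
      · exact zero_mem _
    · dsimp only
      split_ifs with hg
      · exact z2 g
      · rw [h0 g hg, map_zero]
  have x1 : ∑ g ∈ s, G.ρ v (g, true) (z g) ∈ G.Sup v m a (k + 1 + 1) :=
    Submodule.sum_mem _ fun g hg => hs g hg ▸ G.ρ_Sup (z1 g)
  have x2 := fun o => pull h x1 (o := o) (by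
    rw [map_sum, Finset.sum_congr rfl fun g _ => by rw [C.Φ_ρ (z1 g), z2]]; exact h1)
  let y : SG.T E := comapDomain (List.cons (G.d l, false)) (z (G.d l)) List.cons_injective.injOn
  have y0 : ∀ o, y o = z (G.d l) ((G.d l, false) :: o) := fun o => rfl
  have y1 : y ∈ G.Sup v m (G.src l) k := G.mem_Sup.2 fun o ho => by
    rw [y0]
    exact G.mem_Sup.1 (z1 _) _ fun hh => ho ⟨hh.1.1, by rw [hh.1.2.1]; simp [SG.ls, G.cls_d],
      by have := hh.2.2; simp at this; omega⟩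
  refine ⟨C.Φ v y, ⟨y, y1, rfl⟩, fun e he => ?_⟩
  have y2 : y ∈ G.Sup v m (G.ls (e, false)) k := by simpa [SG.ls, he] using y1
  refine ⟨z e - G.ρ v (e, false) y, down (sub_mem (z1 e) (G.ρ_Sup y2)) ?_,
    by rw [map_sub, C.Φ_ρ y2, z2]⟩
  intro o o1 o2 o3
  have key : (if G.Val v ((e, true) :: o) then z e o else 0) =
      if e ≠ G.d l then SG.tl e (G.d l) (z (G.d l)) o else 0 := by
    have := x2 ((e, true) :: o) (by simp; omega)
    rw [finsetSum_apply, Finset.sum_congr rfl fun b _ => G.Cb (z1 b) e o o3,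
      Finset.sum_sub_distrib, sub_eq_zero, Finset.sum_eq_single e, Finset.sum_eq_single (G.d l)]
      at this
    · simpa [he] using this
    · intro b _ hb; rw [if_neg fun h => hb (he ▸ h.1)]
    · intro hb
      rw [z0 _ hb]
      rcases o with _ | ⟨⟨g, _ | _⟩, o⟩ <;> simp [SG.tl]
    · intro b _ hb; rw [if_neg fun h => hb h.1.symm]
    · intro hb; simp [z0 _ hb]
  rw [Finsupp.sub_apply, sub_eq_zero]
  rcases o with _ | ⟨⟨g, _ | _⟩, o⟩
  · rw [if_pos ⟨o1, o2, id⟩] at key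
    rw [key, Sup_lt y2 (by simp at o3; omega)]
    simp [SG.tl]
  · rw [G.Ca y2 g o (by simp at o3; omega), y0]
    by_cases e1 : e = G.d l
    · by_cases e2 : g = e
      · rw [if_pos ⟨e2, o1⟩, e2, ← e1]
      · rw [if_pos ⟨o1, o2, fun h => e2 h.1⟩, if_neg (not_not.2 e1)] at key
        rw [key, if_neg fun h => e2 h.1]
    · rw [if_pos (G.val_ud o1 o2 (he ▸ e1)), if_pos e1] at key
      rw [key, SG.tl]
      simp [o1]
  · have := G.up_lt (g, true)
    rw [show G.lt (g, true) = G.r e from o2, G.up_r] at this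
    simp at this

end CK

end Pool.Agent.H.MP_85b181_al
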