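import Pool.Agent.H.MP_85b181_al.C

set_option autoImplicit false

namespace Pool.Agent.H.MP_85b181_al

open scoped Classical

universe u v

variable {X E L : Type u}

lemma sum_split {J K M : Type*} [Fintype J] [Fintype K] [AddCommMonoid M] {κ : K → J}
    (hκ : Function.Injective κ) (f : J → M) :
    ∑ j, f j = ∑ j : {j // j ∉ Set.range κ}, f j + ∑ k, f (κ k) := by
  rw [← Finset.sum_filter_add_sum_filter_not Finset.univ (fun j => j ∈ Set.range κ), add_comm,
    Finset.sum_subtype (p := fun j => j ∉ Set.range κ) _ (by simp) f,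
    ← Finset.sum_image (f := f) (s := Finset.univ) fun a _ b _ h => hκ h]
  have : (Finset.univ.filter fun j => j ∈ Set.range κ) = Finset.univ.image κ := by
    ext j; simp
  rw [this]

namespace CK
variable {G : SG X E L} {A : Type v} [Ring A] [Algebra ℚ A] (C : CK G A)

noncomputable def Row {S : Type} (x : S → X) (m : S → ℕ) (w : X) (n : ℕ) : Submodule ℚ (S → A) :=
  Submodule.pi Set.univ fun i => C.D (x i) (m i) w n

variable {C}

section
variable {S : Type} {x : S → X} {m : S → ℕ}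

lemma mem_Row {w : X} {n : ℕ} {r : S → A} :
    r ∈ C.Row x m w n ↔ ∀ i, r i ∈ C.D (x i) (m i) w n := by simp [Row, Submodule.mem_pi]

lemma Row_mono {w : X} {n n' : ℕ} (h : n ≤ n') {r : S → A} (hr : r ∈ C.Row x m w n) :
    r ∈ C.Row x m w n' := mem_Row.2 fun i => C.D_mono h (mem_Row.1 hr i)

lemma RL1 {n : ℕ} {l : E × Bool} {r : S → A} (h : r ∈ C.Row x m (G.ls l) n) :
    C.c l • r ∈ C.Row x m (G.lt l) (n + 1) := mem_Row.2 fun i => C.L1 (mem_Row.1 h i)

lemma Row_π {w : X} {n : ℕ} {r : S → A} (h : r ∈ C.Row x m w n) : C.π w • r = r :=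
  funext fun i => (C.D_π (mem_Row.1 h i)).1

lemma Row_par {w : X} {n : ℕ} {r : S → A} (h : r ∈ C.Row x m w (n + 1))
    (hm : ∀ i, (m i + (G.up (x i)).toNat) % 2 = 0) (hn : (n + (G.up w).toNat) % 2 = 0) :
    r ∈ C.Row x m w n := mem_Row.2 fun i => C.D_par (mem_Row.1 h i) (hm i) hn

lemma RL2 [Fintype S] {w : X} {n : ℕ} {r : S → A} (h : r ∈ C.Row x m w (n + 1))
    (h0 : ∀ i, m i = n + 1 → r i = 0) :
    ∃ (s : Finset E) (z : E → S → A), (∀ e ∉ s, z e = 0) ∧ (∀ e ∈ s, G.lt (e, G.up w) = w) ∧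
      (∀ e, z e ∈ C.Row x m (G.ls (e, G.up w)) n) ∧
      r - ∑ e ∈ s, C.c (e, G.up w) • z e ∈ C.Row x m w n := by
  have : ∀ i, ∃ (s : Finset E) (z : E → A), (∀ e ∉ s, z e = 0) ∧ (∀ e ∈ s, G.lt (e, G.up w) = w) ∧
      (∀ e, z e ∈ C.D (x i) (m i) (G.ls (e, G.up w)) n) ∧
      r i - ∑ e ∈ s, C.c (e, G.up w) * z e ∈ C.D (x i) (m i) w n := by
    intro i
    rcases lt_trichotomy (m i) (n + 1) with h1 | h1 | h1
    · exact C.L2 (mem_Row.1 h i) (by omega)
    · exact ⟨∅, 0, by simp [h0 i h1]⟩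
    · exact ⟨∅, 0, by simp [C.D_lt (mem_Row.1 h i) h1]⟩
  choose s z a1 a2 a3 a4 using this
  refine ⟨Finset.univ.biUnion s, fun e i => z i e, fun e he => funext fun i => a1 i e fun h =>
    he (Finset.mem_biUnion.2 ⟨i, Finset.mem_univ _, h⟩), fun e he => ?_,
    fun e => mem_Row.2 fun i => a3 i e, mem_Row.2 fun i => ?_⟩
  · obtain ⟨i, -, hi⟩ := Finset.mem_biUnion.1 he
    exact a2 i e hi
  · have := a4 i
    rw [Finset.sum_subset (Finset.subset_biUnion_of_mem s (Finset.mem_univ i))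
      fun e _ he => by simp [a1 i e he]] at this
    simpa using this

lemma RN2 (h : C.NF) {b : X} {n : ℕ} {s : Finset E} {Z : E → S → A} (hs : ∀ g ∈ s, G.r g = b)
    (hZ : ∀ g, Z g ∈ C.Row x m (G.ls (g, false)) n)
    (h1 : ∑ g ∈ s, C.c (g, false) • Z g ∈ C.Row x m b n) {g e : E} (hg : g ∈ s)
    (he : G.cls e = G.cls g) : C.c (e, false) • Z g ∈ C.Row x m (G.r e) n :=
  mem_Row.2 fun i => N2 h (Z := fun g => Z g i) hs (fun g => mem_Row.1 (hZ g) i)
    (by simpa using mem_Row.1 h1 i) hg he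

lemma RN3 (h : C.NF) {n : ℕ} {s : Finset E} {W : E → S → A} {e : E}
    (hs : ∀ g ∈ s, G.src (G.cls g) = G.src (G.cls e) ∧ G.cls g ≠ G.cls e)
    (hW : ∀ g, W g ∈ C.Row x m (G.ls (g, true)) n)
    (h1 : C.c (e, false) • ∑ g ∈ s, C.c (g, true) • W g ∈ C.Row x m (G.r e) (n + 1)) :
    ∑ g ∈ s, C.c (g, true) • W g ∈ C.Row x m (G.src (G.cls e)) n :=
  mem_Row.2 fun i => by
    simpa using N3 h (W := fun g => W g i) hs (fun g => mem_Row.1 (hW g) i)
      (by simpa using mem_Row.1 h1 i)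

lemma RN1 (h : C.NF) {a : X} {k : ℕ} {s : Finset E} {W : E → S → A} (h0 : ∀ g ∉ s, W g = 0)
    (hs : ∀ g ∈ s, G.src (G.cls g) = a) (hW : ∀ g, W g ∈ C.Row x m (G.ls (g, true)) (k + 1))
    (h1 : ∑ g ∈ s, C.c (g, true) • W g ∈ C.Row x m a (k + 1)) (l : L) :
    ∃ u ∈ C.Row x m (G.src l) k, ∀ e, G.cls e = l →
      W e - C.c (e, false) • u ∈ C.Row x m (G.r e) k := by
  choose u u1 u2 using fun i => N1 h (W := fun g => W g i) (fun g hg => by simp [h0 g hg]) hs
    (fun g => mem_Row.1 (hW g) i) (by simpa using mem_Row.1 h1 i) l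
  exact ⟨u, mem_Row.2 u1, fun e he => mem_Row.2 fun i => u2 i e he⟩

end

variable (C)

structure Fam {S : Type} (x : S → X) (mS : S → ℕ) where
  J : Type
  fin : Fintype J
  y : J → X
  m : J → ℕ
  v : J → S → A
  hv : ∀ j, v j ∈ C.Row x mS (y j) (m j)
  par : ∀ j, (m j + (G.up (y j)).toNat) % 2 = 0

attribute [instance] Fam.fin

variable {C} {S : Type} {x : S → X} {mS : S → ℕ}

namespace Fam
variable (F : C.Fam x mS)

noncomputable def φ : (F.J → A) →ₗ[A] (S → A) := Fintype.linearCombination A F.v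

lemma φ_eq (r : F.J → A) : F.φ r = ∑ j, r j • F.v j := rfl

lemma φ_Row {w : X} {n : ℕ} {r : F.J → A} (h : r ∈ C.Row F.y F.m w n) :
    F.φ r ∈ C.Row x mS w n := mem_Row.2 fun i => by
  rw [φ_eq, Finset.sum_apply]
  exact Submodule.sum_mem _ fun j _ => C.D_comp (mem_Row.1 (F.hv j) i) (mem_Row.1 h j)

def wt : ℕ := ∑ j, 3 ^ F.m j

def Sp : Submodule A (S → A) := Submodule.span A (Set.range F.v)

def Inj : Prop := ∀ r, F.φ r = 0 → ∀ j, r j * C.π (F.y j) = 0

def Inv {M : Type*} [AddCommMonoid M] (δ : X → M) : M := ∑ j, δ (F.y j)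

lemma φ_Sp (r : F.J → A) : F.φ r ∈ F.Sp :=
  Submodule.sum_mem _ fun j _ => Submodule.smul_mem _ _ (Submodule.subset_span ⟨j, rfl⟩)

variable {M : Type*} [AddCommMonoid M] (δ : X → M)

def Red (F' : C.Fam x mS) : Prop :=
  F'.wt < F.wt ∧ F'.Sp = F.Sp ∧ (F.Inj → F'.Inj ∧ F'.Inv δ = F.Inv δ)

lemma block {K K' : Type} [Fintype K] [Fintype K'] {κ : K → F.J} (hκ : Function.Injective κ)
    (ρ : K → F.J → A) (ρ1 : ∀ k, ∃ c : ℚ, c ≠ 0 ∧ ρ k (κ k) = c • C.π (F.y (κ k)))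
    (ρ2 : ∀ k k', k ≠ k' → ρ k (κ k') = 0) (ρ3 : ∀ k, C.π (F.y (κ k)) • ρ k = ρ k)
    (y' : K' → X) (m' : K' → ℕ) (P : K' → K → A)
    (hv : ∀ k', ∑ k, P k' k • F.φ (ρ k) ∈ C.Row x mS (y' k') (m' k'))
    (par : ∀ j, (m' j + (G.up (y' j)).toNat) % 2 = 0)
    (hQ : ∀ k, ∃ Q : K' → A, F.φ (ρ k) = ∑ k', Q k' • ∑ k, P k' k • F.φ (ρ k))
    (hI : F.Inj → (∀ a : K' → A, (∀ k, (∑ k', a k' * P k' k) * C.π (F.y (κ k)) = 0) →
      ∀ k', a k' * C.π (y' k') = 0) ∧ ∑ k', δ (y' k') = ∑ k, δ (F.y (κ k)))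
    (hw : ∑ k', 3 ^ m' k' < ∑ k, 3 ^ F.m (κ k)) : ∃ F', F.Red δ F' := by
  let F' : C.Fam x mS :=
    { J := {j // j ∉ Set.range κ} ⊕ K'
      fin := inferInstance
      y := Sum.elim (fun j => F.y j) y'
      m := Sum.elim (fun j => F.m j) m'
      v := Sum.elim (fun j => F.v j) fun k' => ∑ k, P k' k • F.φ (ρ k)
      hv := by rintro (j | k'); exacts [F.hv j, hv k']
      par := by rintro (j | k'); exacts [F.par j, par k'] }
  refine ⟨F', ?_, le_antisymm ?_ ?_, fun hF => ⟨?_, ?_⟩⟩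
  · rw [wt, wt, sum_split hκ]
    exact (Fintype.sum_sum_type _).trans_lt (Nat.add_lt_add_left hw _)
  · refine Submodule.span_le.2 ?_
    rintro _ ⟨j | k', rfl⟩
    · exact Submodule.subset_span ⟨j, rfl⟩
    · exact Submodule.sum_mem F.Sp fun k _ => Submodule.smul_mem _ _ (F.φ_Sp _)
  · refine Submodule.span_le.2 ?_
    have a0 : ∀ j : {j // j ∉ Set.range κ}, F.v j ∈ F'.Sp := fun j =>
      Submodule.subset_span ⟨Sum.inl j, rfl⟩
    rintro _ ⟨j, rfl⟩
    by_cases hj : j ∈ Set.range κ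
    · obtain ⟨k, rfl⟩ := hj
      obtain ⟨Q, hQ⟩ := hQ k
      obtain ⟨c, c0, hc⟩ := ρ1 k
      have a1 : F.φ (ρ k) ∈ F'.Sp := by
        rw [hQ]
        exact Submodule.sum_mem _ fun k' _ => Submodule.smul_mem _ _
          (Submodule.subset_span ⟨Sum.inr k', rfl⟩)
      rw [φ_eq, sum_split hκ, add_mem_cancel_left (Submodule.sum_mem _ fun j _ =>
        Submodule.smul_mem _ _ (a0 j)), Finset.sum_eq_single k
          (fun b _ hb => by rw [ρ2 k b (Ne.symm hb), zero_smul]) (by simp), hc, smul_assoc,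
        Row_π (F.hv _)] at a1
      have := F'.Sp.smul_of_tower_mem c⁻¹ a1
      rwa [inv_smul_smul₀ c0] at this
    · exact a0 ⟨j, hj⟩
  · intro r hr
    let b : K → A := fun k => ∑ k', r (Sum.inr k') * P k' k
    let R : F.J → A := (fun j => if h : j ∉ Set.range κ then r (Sum.inl ⟨j, h⟩) else 0) +
      ∑ k, b k • ρ k
    have e : F.φ R = F'.φ r := by
      rw [map_add, map_sum, φ_eq, φ_eq F', sum_split hκ]
      refine Eq.trans ?_ (Fintype.sum_sum_type _).symm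
      rw [Finset.sum_eq_zero (f := fun k => _ • F.v (κ k)) fun k _ => by
        rw [dif_neg (by simp), zero_smul], add_zero]
      congr 1
      · exact Finset.sum_congr rfl fun j _ => by rw [dif_pos j.2]; rfl
      · simp only [map_smul]
        simp only [b, Finset.sum_smul]
        rw [Finset.sum_comm]
        refine Finset.sum_congr rfl fun k' _ => ?_
        exact ((Finset.smul_sum).trans (Finset.sum_congr rfl fun k _ => (mul_smul _ _ _).symm)).symm
    have h1 := hF R (e.trans hr)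
    have h2 : ∀ k, b k * C.π (F.y (κ k)) = 0 := by
      intro k
      obtain ⟨c, c0, hc⟩ := ρ1 k
      have := h1 (κ k)
      simp only [R, Pi.add_apply, Finset.sum_apply, Pi.smul_apply, smul_eq_mul] at this
      rw [dif_neg (by simp), zero_add, Finset.sum_eq_single k
        (fun b _ hb => by rw [ρ2 b k hb, mul_zero]) (by simp), hc, mul_smul_comm, smul_mul_assoc,
        mul_assoc, C.ππ] at this
      exact (smul_eq_zero_iff_right c0).1 this
    rintro (j | k')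
    · have := h1 j
      have h3 : ∑ k, b k • ρ k = 0 := Finset.sum_eq_zero fun k _ => by
        rw [← ρ3 k, ← mul_smul, h2, zero_smul]
      simp only [R, h3, add_zero] at this
      rwa [dif_pos j.2] at this
    · exact (hI hF).1 (fun k' => r (Sum.inr k')) h2 k'
  · rw [Inv, Inv, sum_split hκ, ← (hI hF).2]
    exact Fintype.sum_sum_type _

end Fam

end CK

end Pool.Agent.H.MP_85b181_al
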