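import Pool.Agent.H.MP_85b181_al.D

set_option autoImplicit false

namespace Pool.Agent.H.MP_85b181_al

open scoped Classical

universe u v

variable {X E L : Type u}

namespace CK
variable {G : SG X E L} {A : Type v} [Ring A] [Algebra ℚ A] {C : CK G A}
variable {S : Type} {x : S → X} {mS : S → ℕ}

namespace Fam
variable (F : C.Fam x mS) {M : Type*} [AddCommMonoid M] (δ : X → M)

lemma top {w : X} {n : ℕ} {r : F.J → A} (hr : r ∈ C.Row F.y F.m w n) {j : F.J} (hj : F.m j = n)
    (h0 : r j ≠ 0) : F.y j = w ∧ ∃ c : ℚ, c ≠ 0 ∧ r j = c • C.π (F.y j) :=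
  C.D_eq (hj ▸ mem_Row.1 hr j) h0

lemma mvDrop (h : C.NF) {j : F.J} (hj : F.v j = 0) : ∃ F', F.Red δ F' := by
  have e : F.φ (Pi.single j (C.π (F.y j))) = 0 := by
    rw [φ, Fintype.linearCombination_apply_single, hj, smul_zero]
  refine F.block δ (K := Unit) (K' := Empty) (κ := fun _ => j) (fun _ _ _ => rfl)
    (fun _ => Pi.single j (C.π (F.y j))) (fun _ => ⟨1, one_ne_zero, by simp⟩)
    (fun _ _ h => absurd rfl h) (fun _ => by rw [← Pi.single_smul, smul_eq_mul, C.ππ])
    Empty.elim Empty.elim Empty.elim (fun e => e.elim) (fun e => e.elim)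
    (fun _ => ⟨0, by simpa using e⟩) (fun hF => ?_) (by simp)
  have := hF _ e j
  rw [Pi.single_eq_same, C.ππ] at this
  exact absurd this (π_ne h _)

lemma mvT {w : X} {k : ℕ} {r : F.J → A} (hr : r ∈ C.Row F.y F.m w (k + 2)) {j : F.J}
    (hj : F.m j = k + 2) (h0 : r j ≠ 0) (h1 : F.φ r ∈ C.Row x mS w k) : ∃ F', F.Red δ F' := by
  obtain ⟨rfl, hc⟩ := F.top hr hj h0
  refine F.block δ (K := Unit) (K' := Unit) (κ := fun _ => j) (fun _ _ _ => rfl)
    (fun _ => r) (fun _ => hc) (fun _ _ h => absurd rfl h) (fun _ => Row_π hr)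
    (fun _ => F.y j) (fun _ => k) (fun _ _ => 1) (fun _ => by simpa using h1)
    (fun _ => by have := F.par j; omega) (fun _ => ⟨1, by simp⟩)
    (fun _ => ⟨fun a ha _ => by simpa using ha (), rfl⟩) ?_
  simp only [Finset.univ_unique, Finset.sum_singleton, hj]
  exact Nat.pow_lt_pow_right (by norm_num) (by omega)

lemma mvS (hδ : ∀ l, δ (G.src l) = ∑ e ∈ G.F l, δ (G.r e)) {l : L} {k : ℕ} {r : F.J → A}
    (hr : r ∈ C.Row F.y F.m (G.src l) (k + 1)) {j : F.J} (hj : F.m j = k + 1) (h0 : r j ≠ 0)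
    (h1 : ∀ e, G.cls e = l → C.c (e, false) • F.φ r ∈ C.Row x mS (G.r e) k) :
    ∃ F', F.Red δ F' := by
  obtain ⟨hy, hc⟩ := F.top hr hj h0
  let q : Fin (G.F l).card ≃ G.F l := (G.F l).equivFin.symm
  have cl : ∀ e : G.F l, G.cls e = l := fun e => (G.memF _ _).1 e.2
  have sq : ∀ {N : Type v} [AddCommMonoid N] (f : E → N), ∑ i, f (q i) = ∑ e ∈ G.F l, f e :=
    fun f => (q.sum_comp fun e => f e.1).trans (Finset.sum_coe_sort _ f)
  refine F.block δ (K := Unit) (K' := Fin (G.F l).card) (κ := fun _ => j)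
    (fun _ _ _ => rfl) (fun _ => r) (fun _ => hc) (fun _ _ h => absurd rfl h)
    (fun _ => hy ▸ Row_π hr) (fun e => G.r (q e)) (fun _ => k) (fun e _ => C.c (q e, false))
    (fun e => by simpa using h1 _ (cl _))
    (fun _ => by have := F.par j; rw [hy, G.up_src] at this; rw [G.up_r]; simp at this ⊢; omega)
    (fun _ => ⟨fun e => C.c (q e, true), ?_⟩) (fun _ => ⟨fun a ha e => ?_, ?_⟩) ?_
  · simp only [Finset.univ_unique, Finset.sum_singleton, ← mul_smul]
    rw [← Finset.sum_smul, sq fun e => C.c (e, true) * C.c (e, false), C.sum, Row_π (F.φ_Row hr)]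
  · have := congrArg (· * C.c (q e, true)) (ha ())
    simp only [hy, zero_mul] at this
    have e1 := C.πc ((q e).1, true)
    rw [SG.lt, cl] at e1
    rw [mul_assoc, e1, Finset.sum_mul, Finset.sum_eq_single e (fun b _ hb => by
        rw [mul_assoc, C.ab _ _ ((cl _).trans (cl _).symm), if_neg, mul_zero]
        intro h
        exact hb (q.injective (Subtype.ext h)).symm) (by simp),
      mul_assoc, C.ab _ _ rfl, if_pos rfl] at this
    exact this
  · rw [(q.sum_comp fun e => δ (G.r e.1)), Finset.sum_coe_sort _ fun e => δ (G.r e), ← hδ]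
    simp [hy]
  · have h3 := G.card l
    simp only [hj, Finset.sum_const, Finset.card_univ, Fintype.card_unit, one_mul,
      Fintype.card_fin, smul_eq_mul, pow_succ]
    have : 0 < 3 ^ k := by positivity
    calc _ ≤ 2 * 3 ^ k := Nat.mul_le_mul_right _ h3
      _ < _ := by omega

lemma mvJ (hδ : ∀ l, δ (G.src l) = ∑ e ∈ G.F l, δ (G.r e)) {l : L} {k : ℕ} {W : E → F.J → A}
    (hr : ∀ e, W e ∈ C.Row F.y F.m (G.r e) (k + 1))
    (hj : ∀ e, G.cls e = l → ∃ j, F.m j = k + 1 ∧ W e j ≠ 0)
    (h1 : ∑ e ∈ G.F l, C.c (e, true) • F.φ (W e) ∈ C.Row x mS (G.src l) k) :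
    ∃ F', F.Red δ F' := by
  let q : Fin (G.F l).card ≃ G.F l := (G.F l).equivFin.symm
  have cl : ∀ e : G.F l, G.cls e = l := fun e => (G.memF _ _).1 e.2
  choose κ κ1 κ2 using fun i => hj (q i) (cl _)
  have hy := fun i => F.top (hr _) (κ1 i) (κ2 i)
  have qi : ∀ i i', G.r (q i) = G.r (q i') → i = i' := fun i i' h =>
    q.injective (Subtype.ext (G.inj _ _ ((cl _).trans (cl _).symm) h))
  have sq : ∀ {N : Type v} [AddCommMonoid N] (f : E → N), ∑ i, f (q i) = ∑ e ∈ G.F l, f e :=
    fun f => (q.sum_comp fun e => f e.1).trans (Finset.sum_coe_sort _ f)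
  let i0 := q.symm ⟨G.d l, (G.memF _ _).2 (G.cls_d l)⟩
  refine F.block δ (K := Fin (G.F l).card) (K' := Unit) (κ := κ)
    (fun i i' h => qi _ _ (by rw [← (hy i).1, ← (hy i').1, h])) (fun i => W (q i))
    (fun i => (hy i).2) (fun i i' h => ?_) (fun i => (hy i).1 ▸ Row_π (hr _))
    (fun _ => G.src l) (fun _ => k) (fun _ i => C.c (q i, true))
    (fun _ => by rw [sq fun e => C.c (e, true) • F.φ (W e)]; exact h1) (fun _ => ?_)
    (fun i => ⟨fun _ => C.c (q i, false), ?_⟩) (fun _ => ⟨fun a ha _ => ?_, ?_⟩) ?_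
  · by_contra hc
    exact h (qi _ _ ((F.top (hr _) (κ1 i') hc).1.symm.trans (hy i').1))
  · have := F.par (κ i0)
    rw [(hy i0).1, G.up_r, κ1] at this
    rw [G.up_src]; simp at this ⊢; omega
  · simp only [Finset.univ_unique, Finset.sum_singleton, Finset.smul_sum, ← mul_smul]
    rw [Finset.sum_eq_single i (fun b _ hb => by
      rw [C.ab _ _ ((cl _).trans (cl _).symm), if_neg, zero_smul]
      intro h
      exact hb (q.injective (Subtype.ext h))) (by simp), C.ab _ _ rfl, if_pos rfl,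
      Row_π (F.φ_Row (hr _))]
  · rw [← C.sum, ← sq fun e => C.c (e, true) * C.c (e, false), Finset.mul_sum]
    refine Finset.sum_eq_zero fun i _ => ?_
    have := ha i
    simp only [Finset.univ_unique, Finset.sum_singleton, (hy i).1] at this
    rw [mul_assoc, show _ * C.π (G.r (q i)) = _ from C.cπ (_, true)] at this
    rw [← mul_assoc, this, zero_mul]
  · rw [Finset.sum_congr rfl fun i _ => congrArg δ (hy i).1, (q.sum_comp fun e => δ (G.r e.1)),
      Finset.sum_coe_sort _ fun e => δ (G.r e), ← hδ]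
    simp
  · simp only [Finset.univ_unique, Finset.sum_singleton]
    refine lt_of_lt_of_le ?_ (Finset.single_le_sum (f := fun i => 3 ^ F.m (κ i))
      (fun _ _ => Nat.zero_le _) (Finset.mem_univ i0))
    rw [κ1]
    exact Nat.pow_lt_pow_right (by norm_num) (by omega)

def GI (n : ℕ) : Prop :=
  ∀ w r, r ∈ C.Row F.y F.m w (n + 1) → F.φ r ∈ C.Row x mS w n → r ∈ C.Row F.y F.m w n

theorem step (h : C.NF) (hδ : ∀ l, δ (G.src l) = ∑ e ∈ G.F l, δ (G.r e))
    (pS : ∀ i, (mS i + (G.up (x i)).toNat) % 2 = 0) (nr : ¬ ∃ F', F.Red δ F') {k : ℕ}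
    (ih : F.GI k) : F.GI (k + 1) := by
  intro w r hr h1
  by_cases hp : (k + (G.up w).toNat) % 2 = 0
  swap
  · exact Row_par hr F.par (by omega)
  have t0 : ∀ j, F.m j = k + 1 + 1 → r j = 0 := fun j hj => by_contra fun h0 =>
    nr (F.mvT δ hr hj h0 (Row_par h1 pS hp))
  obtain ⟨s, z, s0, s1, s2, s3⟩ := RL2 hr t0
  suffices hh : ∑ e ∈ s, C.c (e, G.up w) • z e ∈ C.Row F.y F.m w (k + 1) by
    simpa using add_mem s3 hh
  have h2 : ∑ e ∈ s, C.c (e, G.up w) • F.φ (z e) ∈ C.Row x mS w (k + 1) := by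
    have := sub_mem h1 (F.φ_Row s3)
    simpa [map_sub, map_sum] using this
  clear t0 s3 h1 hr r
  cases hu : G.up w with
  | true =>
    rw [hu] at s1 s2 h2 hp
    have key : ∀ l, G.src l = w →
        ∑ e ∈ G.F l, C.c (e, true) • z e ∈ C.Row F.y F.m w (k + 1) := by
      rintro l rfl
      obtain ⟨u, u1, u2⟩ := RN1 h (W := fun e => F.φ (z e)) (fun g hg => by simp [s0 g hg]) s1
        (fun g => F.φ_Row (s2 g)) h2 l
      have dec : ∀ {S' : Type} {x' : S' → X} {m' : S' → ℕ} (W : E → S' → A) (u : S' → A),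
          u ∈ C.Row x' m' (G.src l) k →
          (∀ e, G.cls e = l → W e - C.c (e, false) • u ∈ C.Row x' m' (G.r e) k) →
          ∑ e ∈ G.F l, C.c (e, true) • W e ∈ C.Row x' m' (G.src l) (k + 1) := by
        intro S' x' m' W u u1 u2
        have e1 : ∑ e ∈ G.F l, C.c (e, true) • W e =
            u + ∑ e ∈ G.F l, C.c (e, true) • (W e - C.c (e, false) • u) := by
          simp only [smul_sub, Finset.sum_sub_distrib, ← mul_smul, ← Finset.sum_smul, C.sum,
            Row_π u1]
          abel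
        rw [e1]
        refine add_mem (Row_mono (Nat.le_succ k) u1) (Submodule.sum_mem _ fun e he => ?_)
        have := (G.memF _ _).1 he
        exact this ▸ RL1 (l := (e, true)) (u2 e this)
      by_cases hj : ∀ e, G.cls e = l → ∃ j, F.m j = k + 1 ∧ z e j ≠ 0
      · exact absurd (F.mvJ δ hδ s2 hj (Row_par (dec _ u u1 u2) pS (by rwa [G.up_src]))) nr
      push Not at hj
      obtain ⟨e0, e1, e2⟩ := hj
      obtain ⟨s', z', a0, a1, a2, a3⟩ := RL2 (s2 e0) e2
      rw [show G.up (G.ls (e0, true)) = false from G.up_r e0] at a1 a2 a3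
      have b1 : ∑ g ∈ insert e0 s', C.c (g, false) • (F.φ (z' g) - Pi.single (M := fun _ => S → A)
          e0 u g) ∈ C.Row x mS (G.r e0) k := by
        have := sub_mem (u2 e0 e1) (F.φ_Row a3)
        rw [Finset.sum_subset (Finset.subset_insert e0 s') fun e _ he => by simp [a0 e he]] at this
        simp only [smul_sub, Finset.sum_sub_distrib]
        rw [Finset.sum_eq_single_of_mem (f := fun g => C.c (g, false) •
          Pi.single (M := fun _ => S → A) e0 u g) e0 (Finset.mem_insert_self _ _)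
          fun b _ hb => by rw [Pi.single_eq_of_ne hb, smul_zero], Pi.single_eq_same]
        convert this using 1
        simp only [map_sub, map_sum, map_smul]
        abel
      have b2 := fun e (he : G.cls e = G.cls e0) => RN2 h (b := G.r e0) (by
          intro g hg
          rcases Finset.mem_insert.1 hg with rfl | hg
          exacts [rfl, a1 g hg]) (fun g => sub_mem (F.φ_Row (a2 g)) (by
          by_cases hg : g = e0
          · subst hg; rw [Pi.single_eq_same]; simpa [SG.ls, e1] using u1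
          · rw [Pi.single_eq_of_ne hg]; exact zero_mem _)) b1 (Finset.mem_insert_self _ _) he
      have a4 : z' e0 ∈ C.Row F.y F.m (G.src l) k := by simpa [SG.ls, e1] using a2 e0
      refine dec z (z' e0) a4 fun e he => ih _ _ (sub_mem (s2 e)
        (RL1 (l := (e, false)) (by simpa [SG.ls, he] using a4))) ?_
      have := sub_mem (u2 e he) (b2 e (he.trans e1.symm))
      rw [Pi.single_eq_same] at this
      convert this using 1
      simp only [map_sub, map_smul, smul_sub]
      abel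
    rw [← Finset.sum_fiberwise_of_maps_to (g := G.cls) (t := s.image G.cls)
      fun e he => Finset.mem_image_of_mem _ he]
    refine Submodule.sum_mem _ fun l hl => ?_
    obtain ⟨e, he, rfl⟩ := Finset.mem_image.1 hl
    rw [Finset.sum_subset (s₂ := G.F (G.cls e)) (fun g hg => (G.memF _ _).2 (Finset.mem_filter.1 hg).2)
      fun g h1 h2 => by
        rw [s0 g fun h => h2 (Finset.mem_filter.2 ⟨h, (G.memF _ _).1 h1⟩), smul_zero]]
    exact key _ (s1 e he)
  | false =>
    rw [hu] at s1 s2 h2 hp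
    refine Submodule.sum_mem _ fun g hg => ?_
    have b2 := fun e (he : G.cls e = G.cls g) =>
      RN2 h (Z := fun e => F.φ (z e)) s1 (fun g => F.φ_Row (s2 g)) h2 hg he
    have t1 : ∀ j, F.m j = k + 1 → z g j = 0 := fun j hj => by_contra fun h0 =>
      nr (F.mvS δ hδ (s2 g) hj h0 fun e he => Row_par (b2 e he) pS (by rw [G.up_r]; exact hp))
    obtain ⟨s', z', a0, a1, a2, a3⟩ := RL2 (s2 g) t1
    rw [show G.up (G.ls (g, false)) = true from G.up_src _] at a1 a2 a3
    rw [← Finset.sum_filter_add_sum_filter_not s' fun e => G.cls e = G.cls g] at a3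
    set z1 := ∑ e ∈ s' with G.cls e = G.cls g, C.c (e, true) • z' e with hz1
    set z2 := ∑ e ∈ s' with ¬ G.cls e = G.cls g, C.c (e, true) • z' e with hz2
    have c1 : C.c (g, false) • z1 ∈ C.Row F.y F.m (G.r g) (k + 1) := by
      rw [hz1, Finset.smul_sum]
      refine Submodule.sum_mem _ fun e he => ?_
      rw [← mul_smul, C.ab _ _ (Finset.mem_filter.1 he).2]
      split_ifs with h
      · subst h; rw [Row_π (w := G.r e) (a2 e)]; exact Row_mono (Nat.le_succ k) (a2 e)
      · simp
    have c2 := RL1 a3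
    have c3 : z2 ∈ C.Row F.y F.m (G.src (G.cls g)) (k + 1) :=
      Submodule.sum_mem _ fun e he => by
        have := RL1 (a2 e)
        rwa [a1 e (Finset.mem_filter.1 he).1] at this
    have c4 : F.φ z2 ∈ C.Row x mS (G.src (G.cls g)) k := by
      have e1 : F.φ z2 = ∑ e ∈ s' with ¬ G.cls e = G.cls g, C.c (e, true) • F.φ (z' e) := by
        simp [hz2, map_sum]
      rw [e1]
      refine RN3 h (fun e he => ⟨a1 e (Finset.mem_filter.1 he).1, (Finset.mem_filter.1 he).2⟩)
        (fun e => F.φ_Row (a2 e)) ?_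
      rw [← e1]
      have := sub_mem (sub_mem (b2 g rfl) (F.φ_Row c2)) (F.φ_Row c1)
      convert this using 1
      simp only [map_sub, map_smul, map_add, smul_sub, smul_add]
      abel
    have c5 := RL1 (l := (g, false)) (ih _ _ c3 c4)
    have := add_mem (add_mem c2 c1) c5
    rw [← s1 g hg]
    convert this using 1
    simp only [smul_sub, smul_add]
    abel

end Fam

theorem reduce (h : C.NF) {M : Type*} [AddCommMonoid M] (δ : X → M)
    (hδ : ∀ l, δ (G.src l) = ∑ e ∈ G.F l, δ (G.r e))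
    (pS : ∀ i, (mS i + (G.up (x i)).toNat) % 2 = 0) (h2 : ∀ i, 2 ≤ mS i) (F : C.Fam x mS) :
    ∃ F' : C.Fam x mS, F'.Sp = F.Sp ∧ (F.Inj → F'.Inv δ = F.Inv δ) ∧ (∀ j, 2 ≤ F'.m j) ∧
      ∀ n, F'.GI n := by
  induction hw : F.wt using Nat.strong_induction_on generalizing F with
  | _ n ih =>
    by_cases nr : ∃ F', F.Red δ F'
    · obtain ⟨F1, a1, a2, a3⟩ := nr
      obtain ⟨F2, b1, b2, b3⟩ := ih _ (hw ▸ a1) F1 rfl
      exact ⟨F2, b1.trans a2, fun hF => (b2 (a3 hF).1).trans (a3 hF).2, b3⟩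
    · have m2 : ∀ j, 2 ≤ F.m j := fun j => by_contra fun hc => nr (F.mvDrop δ h (j := j)
        (funext fun i => C.D_lt (mem_Row.1 (F.hv j) i) (by have := h2 i; omega)))
      refine ⟨F, rfl, fun _ => rfl, m2, fun n => ?_⟩
      induction n with
      | zero =>
        intro w r hr _
        rw [show r = 0 from funext fun j => C.D_lt (mem_Row.1 hr j) (by have := m2 j; omega)]
        exact zero_mem _
      | succ k ih => exact F.step δ h hδ pS nr ih

end CK

end Pool.Agent.H.MP_85b181_al
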