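import Pool.Agent.H.MP_85b181_al.E

set_option autoImplicit false

namespace Pool.Agent.H.MP_85b181_al

open scoped Classical

universe u v

variable {X E L : Type u}

namespace CK
variable {G : SG X E L} {A : Type v} [Ring A] [Algebra ℚ A] (C : CK G A)

def Exh : Prop := ∀ v w u, ∃ n, C.π w * u * C.π v ∈ C.D v 0 w n

variable {C}

lemma D_shift {v w : X} {n : ℕ} {u : A} (h : u ∈ C.D v 0 w n) (m : ℕ) : u ∈ C.D v m w (n + m) :=
  Submodule.map_mono (Finsupp.supported_mono (s := G.Wd v 0 w n) (t := G.Wd v m w (n + m))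
    fun _ ho => ⟨ho.1, ho.2.1, by have := ho.2.2; omega⟩) h

lemma Row_exh (he : C.Exh) {S : Type} [Fintype S] (x : S → X) (m : S → ℕ) (w : X) (r : S → A) :
    ∃ n, (fun i => C.π w * r i * C.π (x i)) ∈ C.Row x m w n := by
  choose n hn using fun i => he (x i) w (r i)
  exact ⟨∑ i, (n i + m i), mem_Row.2 fun i => C.D_mono
    (Finset.single_le_sum (f := fun i => n i + m i) (fun _ _ => Nat.zero_le _) (Finset.mem_univ i))
    (D_shift (hn i) _)⟩

section
variable {S : Type} {x : S → X} {mS : S → ℕ} (F : C.Fam x mS)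

lemma Fam.desc (hG : ∀ n, F.GI n) {w : X} {n d : ℕ} {r : F.J → A}
    (hr : r ∈ C.Row F.y F.m w (n + d)) (h : F.φ r ∈ C.Row x mS w n) : r ∈ C.Row F.y F.m w n := by
  induction d with
  | zero => exact hr
  | succ d ih => exact ih (hG _ _ _ hr (Row_mono (Nat.le_add_right _ _) h))

lemma Fam.norm (he : C.Exh) (hG : ∀ n, F.GI n) {w : X} {n : ℕ} (r : F.J → A)
    (h : C.π w • F.φ r ∈ C.Row x mS w n) :
    (fun j => C.π w * r j * C.π (F.y j)) ∈ C.Row F.y F.m w n ∧
      F.φ (fun j => C.π w * r j * C.π (F.y j)) = C.π w • F.φ r := by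
  have e : F.φ (fun j => C.π w * r j * C.π (F.y j)) = C.π w • F.φ r := by
    simp only [Fam.φ_eq, Finset.smul_sum, mul_smul, Row_π (F.hv _)]
  obtain ⟨d, hd⟩ := Row_exh he F.y F.m w r
  exact ⟨F.desc hG (Row_mono (Nat.le_add_left d n) hd) (e ▸ h), e⟩

lemma Fam.inj (he : C.Exh) (hG : ∀ n, F.GI n) (m2 : ∀ j, 2 ≤ F.m j) {st : X} (hst : C.π st = 1) :
    F.Inj := by
  intro r hr j
  have := (F.norm he hG (w := st) (n := 0) r (by simp [hr])).1
  simpa [hst] using C.D_lt (mem_Row.1 this j) (by have := m2 j; omega)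

end

theorem uniq (h : C.NF) (he : C.Exh) {st : X} (hst : C.π st = 1) {M : Type*} [AddCommMonoid M]
    (δ : X → M) (hδ : ∀ l, δ (G.src l) = ∑ e ∈ G.F l, δ (G.r e)) {a b : X} (ha : G.up a = false)
    (hb : G.up b = false) {p q : A} (h1 : p * q = C.π a) (h2 : q * p = C.π b) : δ a = δ b := by
  obtain ⟨n, hn⟩ := he a b q
  let F : C.Fam (fun _ : Unit => a) fun _ => 2 :=
    { J := Unit, fin := inferInstance, y := fun _ => b, m := fun _ => 2 * n + 2
      v := fun _ _ => C.π b * q * C.π a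
      hv := fun _ => mem_Row.2 fun _ => C.D_mono (by omega) (D_shift hn 2)
      par := fun _ => by rw [hb]; simp }
  have hF : F.Inj := by
    intro r hr j
    have := congrFun hr ()
    simp only [Fam.φ_eq, Finset.sum_apply, Pi.smul_apply, smul_eq_mul, Pi.zero_apply] at this
    have h3 : r () * (C.π b * q * C.π a) = 0 := by simpa [F] using this
    have h4 : C.π b * q * C.π a * p = C.π b := by
      rw [← h1, mul_assoc, mul_assoc, mul_assoc, h2, ← mul_assoc q, h2, C.ππ, C.ππ]
    show r () * C.π b = 0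
    rw [← h4, ← mul_assoc, h3, zero_mul]
  obtain ⟨F', a1, a2, m2, hG⟩ := reduce h δ hδ (fun _ => by rw [ha]; rfl) (fun _ => le_rfl) F
  have hI := F'.inj he hG m2 hst
  have : (fun _ => C.π a) ∈ F'.Sp := by
    rw [a1]
    have h4 : p * (C.π b * q * C.π a) = C.π a := by
      rw [← h2, ← mul_assoc, ← mul_assoc, ← mul_assoc, h1, mul_assoc _ p, h1, C.ππ, C.ππ]
    have := F.Sp.smul_mem p (Submodule.subset_span ⟨(), rfl⟩)
    convert this
    exact h4.symm
  obtain ⟨r, hr⟩ := (Submodule.mem_span_range_iff_exists_fun A).1 this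
  have e0 : C.π a • F'.φ r = fun _ => C.π a := by
    rw [Fam.φ_eq, hr]; funext _; exact C.ππ a
  obtain ⟨b1, b2⟩ := F'.norm he hG (w := a) (n := 2) r
    (e0 ▸ mem_Row.2 fun _ => C.π_D le_rfl)
  rw [e0] at b2
  obtain ⟨j, hj⟩ : ∃ j, C.π a * r j * C.π (F'.y j) * F'.v j () ≠ 0 := by
    by_contra hc
    push Not at hc
    have := congrFun b2 ()
    simp only [Fam.φ_eq, Finset.sum_apply, Pi.smul_apply, smul_eq_mul, hc] at this
    exact π_ne h a (by simpa using this.symm)
  have mj : F'.m j = 2 := le_antisymm (by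
    by_contra hc
    exact left_ne_zero_of_mul hj (C.D_lt (mem_Row.1 b1 j) (by omega))) (m2 j)
  obtain ⟨yj, -⟩ := F'.top b1 mj (left_ne_zero_of_mul hj)
  obtain ⟨-, c, c0, hc⟩ := C.D_eq (mj ▸ mem_Row.1 (F'.hv j) ()) (right_ne_zero_of_mul hj)
  have i1 : F'.Inv δ = δ a := by
    rw [Fam.Inv, Finset.sum_eq_single j (fun i _ hi => ?_) (by simp), yj]
    exfalso
    have := hI (Pi.single i (C.π (F'.y i)) - Pi.single j (c⁻¹ • F'.v i ())) (by
      rw [map_sub, Fam.φ, Fintype.linearCombination_apply_single,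
        Fintype.linearCombination_apply_single, Row_π (F'.hv i)]
      funext _
      simp [hc, (C.D_π (mem_Row.1 (F'.hv i) ())).2, smul_smul, c0]) i
    rw [Pi.sub_apply, Pi.single_eq_same, Pi.single_eq_of_ne hi, sub_zero, C.ππ] at this
    exact π_ne h _ this
  rw [← i1, a2 hF]
  simp [Fam.Inv, F]

theorem std (h : C.NF) (he : C.Exh) {st : X} (hst : C.π st = 1) (hu : G.up st = true)
    {K : Type} [Fintype K] (e : Matrix K K A) (hee : e * e = e) :
    ∃ (J : Type) (_ : Fintype J) (y : J → X) (P : Matrix K J A) (Q : Matrix J K A),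
      P * Q = e ∧ (∀ i j, (Q * P) i j = if i = j then C.π (y i) else 0) ∧ Q * e = Q := by
  choose n hn using fun j => Row_exh he (fun _ : K => st) (fun _ => 3) st (e j)
  let F : C.Fam (fun _ : K => st) fun _ => 3 :=
    { J := K, fin := inferInstance, y := fun _ => st, m := fun j => 2 * n j + 1
      v := e
      hv := fun j => Row_mono (n := n j) (by omega) (by simpa [hst] using hn j)
      par := fun _ => by rw [hu]; simp; omega }
  obtain ⟨F', a1, -, m2, hG⟩ := reduce h (fun _ => (0 : Unit)) (fun _ => rfl)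
    (fun _ => by rw [hu]; rfl) (fun _ => by norm_num) F
  have hI := F'.inj he hG m2 hst
  choose Θ hΘ using fun j => (Submodule.mem_span_range_iff_exists_fun A).1
    (show F'.v j ∈ F.Sp from a1 ▸ Submodule.subset_span ⟨j, rfl⟩)
  choose Θ' hΘ' using fun j => (Submodule.mem_span_range_iff_exists_fun A).1
    (show F.v j ∈ F'.Sp from a1.symm ▸ Submodule.subset_span ⟨j, rfl⟩)
  let Q : Matrix F'.J K A := Matrix.of F'.v
  let P : Matrix K F'.J A := Matrix.of fun i j => Θ' i j * C.π (F'.y j)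
  have vπ : ∀ j i, C.π (F'.y j) * F'.v j i = F'.v j i := fun j i => congrFun (Row_π (F'.hv j)) i
  have e1 : P * Q = e := by
    ext i k
    have := congrFun (hΘ' i) k
    simp only [Finset.sum_apply, Pi.smul_apply, smul_eq_mul] at this
    simp only [Matrix.mul_apply, P, Q, Matrix.of_apply, mul_assoc, vπ]
    exact this
  have e2 : Q * e = Q := by
    have : Q = (Matrix.of Θ : Matrix F'.J K A) * e := by
      ext i k
      have := congrFun (hΘ i) k
      simp only [Finset.sum_apply, Pi.smul_apply, smul_eq_mul] at this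
      exact this.symm
    rw [this, Matrix.mul_assoc, hee]
  refine ⟨F'.J, F'.fin, F'.y, P, Q, e1, fun i j => ?_, e2⟩
  have := hI ((Q * P) i - Pi.single i (C.π (F'.y i))) (by
    rw [map_sub, Fam.φ, Fintype.linearCombination_apply_single, Row_π (F'.hv i), sub_eq_zero]
    funext k
    have : (Q * P * Q) i k = Q i k := by rw [Matrix.mul_assoc, e1, e2]
    rw [Matrix.mul_apply] at this
    rw [Fintype.linearCombination_apply, Finset.sum_apply]
    exact this) j
  rw [Pi.sub_apply, sub_mul, sub_eq_zero] at this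
  have e3 : (Q * P) i j * C.π (F'.y j) = (Q * P) i j := by
    simp only [Matrix.mul_apply, P, Matrix.of_apply, Finset.sum_mul, mul_assoc, C.ππ]
  rw [← e3, this]
  split_ifs with hij
  · subst hij; rw [Pi.single_eq_same, C.ππ]
  · rw [Pi.single_eq_of_ne (Ne.symm hij), zero_mul]

end CK

end Pool.Agent.H.MP_85b181_al
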