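import Pool.Agent.H.MP_85b181_al.F

set_option autoImplicit false

namespace Pool.Agent.H.MP_85b181_al

open scoped Classical

universe u v

lemma CK.NF_of {X E L : Type u} {G : SG X E L} {A : Type v} [Ring A] [Algebra ℚ A] (C : CK G A)
    (H : ∀ v, ∃ (h : A →ₐ[ℚ] Module.End ℚ (SG.T E)) (κ κ' : X → Module.End ℚ (SG.T E)),
      (∀ l, h (C.c l) * κ (G.ls l) = κ (G.lt l) * (G.model v).c l) ∧
      (∀ w, h (C.π w) * κ w = κ w * (G.model v).π w) ∧ ∀ w, κ' w * κ w = (G.model v).π w) :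
    C.NF := by
  intro v w n x hx h0
  obtain ⟨h, κ, κ', a1, a2, a3⟩ := H v
  have b1 : ∀ o, G.Val v o → h (C.wd v o) * κ v = κ (G.en v o) * (G.model v).wd v o := by
    intro o ho
    induction o with
    | nil => exact a2 v
    | cons l o ih =>
      rw [CK.wd, map_mul, mul_assoc, ih ho.1, ho.2.1, ← mul_assoc, a1, mul_assoc]; rfl
  have b2 : (κ' w * (h (C.Φ v x) * κ v)) (Finsupp.single [] 1) = x := by
    refine G.Sup_ind (P := fun x => (κ' w * (h (C.Φ v x) * κ v)) (Finsupp.single [] 1) = x) hx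
      ?_ (by simp) ?_ ?_
    · rintro o ⟨h1, rfl, -⟩
      rw [C.Φ_single, b1 o h1, ← mul_assoc, a3, CK.π_wd, CK.model_wd h1]
    · intro x y a b
      rw [map_add, map_add, add_mul, mul_add, LinearMap.add_apply, a, b]
    · intro c x a
      rw [map_smul, map_smul, smul_mul_assoc, mul_smul_comm, LinearMap.smul_apply, a]
  rw [← b2, h0]; simp

variable (M : Type u) [AddCommMonoid M]

structure PF (B : Type v) [Ring B] where
  p : Bool → M → B
  al : Bool → M → M → B
  be : Bool → M → M → B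
  pp : ∀ s x, p s x * p s x = p s x
  p0 : ∀ s, p s 0 = 0
  ta : ∀ i x y, p i (cond i y x) * al i x y = al i x y
  az : ∀ i x y, al i x y * p false (x + y) = al i x y
  zb : ∀ i x y, p false (x + y) * be i x y = be i x y
  bt : ∀ i x y, be i x y * p i (cond i y x) = be i x y
  ab : ∀ i j x y, al j x y * be i x y = if i = j then p i (cond i y x) else 0
  sum : ∀ x y, be false x y * al false x y + be true x y * al true x y = p false (x + y)

inductive Gen (M : Type u)
  | p (s : Bool) (x : M)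
  | al (i : Bool) (x y : M)
  | be (i : Bool) (x y : M)

abbrev ι (g : Gen M) : FreeAlgebra ℚ (Gen M) := FreeAlgebra.ι ℚ g

inductive Rel : FreeAlgebra ℚ (Gen M) → FreeAlgebra ℚ (Gen M) → Prop
  | pp s x : Rel (ι M (.p s x) * ι M (.p s x)) (ι M (.p s x))
  | p0 s : Rel (ι M (.p s 0)) 0
  | ta i x y : Rel (ι M (.p i (cond i y x)) * ι M (.al i x y)) (ι M (.al i x y))
  | az i x y : Rel (ι M (.al i x y) * ι M (.p false (x + y))) (ι M (.al i x y))
  | zb i x y : Rel (ι M (.p false (x + y)) * ι M (.be i x y)) (ι M (.be i x y))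
  | bt i x y : Rel (ι M (.be i x y) * ι M (.p i (cond i y x))) (ι M (.be i x y))
  | ab i j x y : Rel (ι M (.al j x y) * ι M (.be i x y))
      (if i = j then ι M (.p i (cond i y x)) else 0)
  | sum x y : Rel (ι M (.be false x y) * ι M (.al false x y) + ι M (.be true x y) * ι M (.al true x y))
      (ι M (.p false (x + y)))

abbrev AA := RingQuot (Rel M)

noncomputable def mkA : FreeAlgebra ℚ (Gen M) →ₐ[ℚ] AA M := RingQuot.mkAlgHom ℚ (Rel M)

lemma mk_rel {a b : FreeAlgebra ℚ (Gen M)} (h : Rel M a b) : mkA M a = mkA M b :=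
  RingQuot.mkAlgHom_rel ℚ h

noncomputable def can : PF M (AA M) where
  p s x := mkA M (ι M (.p s x))
  al i x y := mkA M (ι M (.al i x y))
  be i x y := mkA M (ι M (.be i x y))
  pp s x := by simpa using mk_rel M (.pp s x)
  p0 s := by simpa using mk_rel M (.p0 s)
  ta i x y := by simpa using mk_rel M (.ta i x y)
  az i x y := by simpa using mk_rel M (.az i x y)
  zb i x y := by simpa using mk_rel M (.zb i x y)
  bt i x y := by simpa using mk_rel M (.bt i x y)
  ab i j x y := by simpa [apply_ite (mkA M)] using mk_rel M (.ab i j x y)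
  sum x y := by simpa using mk_rel M (.sum x y)

variable {M}

section
variable {B : Type v} [Ring B] [Algebra ℚ B] (Q : PF M B)

def PF.gen : Gen M → B
  | .p s x => Q.p s x
  | .al i x y => Q.al i x y
  | .be i x y => Q.be i x y

noncomputable def PF.lift : AA M →ₐ[ℚ] B :=
  RingQuot.liftAlgHom ℚ ⟨FreeAlgebra.lift ℚ Q.gen, by
    intro a b h
    cases h <;> simp [PF.gen, Q.pp, Q.p0, Q.ta, Q.az, Q.zb, Q.bt, Q.ab, Q.sum,
      apply_ite (FreeAlgebra.lift ℚ Q.gen)]⟩

lemma PF.lift_gen (g : Gen M) : Q.lift (mkA M (ι M g)) = Q.gen g := by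
  simp [PF.lift, mkA]

@[simp] lemma PF.lift_p (s : Bool) (x : M) : Q.lift ((can M).p s x) = Q.p s x := Q.lift_gen _
@[simp] lemma PF.lift_al (s : Bool) (x y : M) : Q.lift ((can M).al s x y) = Q.al s x y :=
  Q.lift_gen _
@[simp] lemma PF.lift_be (s : Bool) (x y : M) : Q.lift ((can M).be s x y) = Q.be s x y :=
  Q.lift_gen _

lemma AA_ext {f g : AA M →ₐ[ℚ] B} (h1 : ∀ s x, f ((can M).p s x) = g ((can M).p s x))
    (h2 : ∀ s x y, f ((can M).al s x y) = g ((can M).al s x y))
    (h3 : ∀ s x y, f ((can M).be s x y) = g ((can M).be s x y)) : f = g := by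
  refine RingQuot.ringQuot_ext' _ _ _ (FreeAlgebra.hom_ext (funext fun a => ?_))
  cases a
  exacts [h1 _ _, h2 _ _ _, h3 _ _ _]

end

inductive Vx (M : Type u) [Zero M]
  | st
  | s (x y : M) (h : ¬(x = 0 ∧ y = 0))
  | lo (t : Bool × Bool × M) (h : t.2.2 ≠ 0)

inductive Cl (M : Type u) [Zero M]
  | st (s : Bool) (x : M) (h : x ≠ 0)
  | one (x y : M) (h : ¬(x = 0 ∧ y = 0))
  | two (x y : M) (h : ¬(x = 0 ∧ y = 0))

def tg : Cl M → Bool → Bool × Bool × M
  | .st s x _, i => (s, i, x)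
  | .one x y _, i => (i, false, cond i y x)
  | .two x y _, i => (i, false, cond i 0 (x + y))

def srcC : Cl M → Vx M
  | .st _ _ _ => .st
  | .one x y h => .s x y h
  | .two x y h => .s x y h

def upV : Vx M → Bool
  | .lo _ _ => false
  | _ => true

abbrev Ed (M : Type u) [AddCommMonoid M] := {p : Cl M × Bool // (tg p.1 p.2).2.2 ≠ 0}

def Con (M : Type u) [AddCommMonoid M] : Prop := ∀ x y : M, x + y = 0 → x = 0 ∧ y = 0

lemma alive (hc : Con M) (l : Cl M) (h : ¬ (tg l false).2.2 ≠ 0) : (tg l true).2.2 ≠ 0 := by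
  rcases l with ⟨s, x, h1⟩ | ⟨x, y, h1⟩ | ⟨x, y, h1⟩
  · exact h1
  · exact fun h2 => h1 ⟨not_not.1 h, h2⟩
  · exact absurd (hc _ _ (not_not.1 h)) h1

noncomputable def Gr (hc : Con M) : SG (Vx M) (Ed M) (Cl M) where
  cls e := e.1.1
  src := srcC
  r e := .lo (tg e.1.1 e.1.2) e.2
  up := upV
  d l := if h : (tg l false).2.2 ≠ 0 then ⟨(l, false), h⟩ else ⟨(l, true), alive hc l h⟩
  F l := ({(l, false), (l, true)} : Finset (Cl M × Bool)).subtype _
  memF := by
    rintro ⟨⟨l', _ | _⟩, h⟩ l <;> simp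
  cls_d l := by split_ifs <;> rfl
  up_src l := by cases l <;> rfl
  up_r _ := rfl
  card l := by
    rw [Finset.card_subtype]
    exact (Finset.card_filter_le _ _).trans Finset.card_le_two
  inj := by
    rintro ⟨⟨l, i⟩, h⟩ ⟨⟨l', j⟩, h'⟩ h1 h2
    obtain rfl : l = l' := h1
    have : tg l i = tg l j := by simpa using h2
    obtain rfl : i = j := by cases l <;> simp_all [tg]
    rfl

lemma sumF (hc : Con M) {N : Type v} [AddCommMonoid N] (l : Cl M) (g : Cl M × Bool → N)
    (h : ∀ i, (tg l i).2.2 = 0 → g (l, i) = 0) :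
    ∑ e ∈ (Gr hc).F l, g e.1 = g (l, false) + g (l, true) := by
  refine (Finset.sum_subtype_eq_sum_filter g).trans ?_
  rw [Finset.sum_filter_of_ne, Finset.sum_pair (by simp)]
  intro x hx h1 h2
  simp only [Finset.mem_insert, Finset.mem_singleton] at hx
  rcases hx with rfl | rfl <;> exact h1 (h _ h2)

end Pool.Agent.H.MP_85b181_al
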