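import Pool.Agent.H.MP_85b181_al.G

set_option autoImplicit false

namespace Pool.Agent.H.MP_85b181_al

open scoped Classical

universe u v

variable {M : Type u} [AddCommMonoid M]

namespace PF
variable {B : Type v} [Ring B] (Q : PF M B)

def lp (t : Bool × Bool × M) : B := cond t.2.1 (1 - Q.p t.1 t.2.2) (Q.p t.1 t.2.2)

def πv : Vx M → B
  | .st => 1
  | .s x y _ => Q.p false (x + y)
  | .lo t _ => Q.lp t

def cc : Cl M → Bool → Bool → B
  | .one x y _, i, false => Q.al i x y
  | .one x y _, i, true => Q.be i x y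
  | l, i, _ => Q.lp (tg l i)

lemma lplp (t : Bool × Bool × M) : Q.lp t * Q.lp t = Q.lp t := by
  rcases t with ⟨s, _ | _, x⟩ <;> simp [lp, Q.pp, mul_sub, sub_mul]

lemma al0 {i : Bool} {x y : M} (h : cond i y x = 0) : Q.al i x y = 0 := by
  rw [← Q.ta, h, Q.p0, zero_mul]

noncomputable def ck (hc : Con M) : CK (Gr hc) B where
  π := Q.πv
  c l := Q.cc l.1.1.1 l.1.1.2 l.2
  ππ v := by
    cases v
    · exact mul_one _
    · exact Q.pp _ _
    · exact Q.lplp _
  πc := by
    rintro ⟨⟨⟨⟨s, x, h1⟩ | ⟨x, y, h1⟩ | ⟨x, y, h1⟩, i⟩, h⟩, _ | _⟩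
    · exact Q.lplp _
    · exact one_mul _
    · exact Q.ta _ _ _
    · exact Q.zb _ _ _
    · exact Q.lplp _
    · cases i
      · exact Q.pp _ _
      · exact absurd rfl h
  cπ := by
    rintro ⟨⟨⟨⟨s, x, h1⟩ | ⟨x, y, h1⟩ | ⟨x, y, h1⟩, i⟩, h⟩, _ | _⟩
    · exact mul_one _
    · exact Q.lplp _
    · exact Q.az _ _ _
    · exact Q.bt _ _ _
    · cases i
      · exact Q.pp _ _
      · exact absurd rfl h
    · exact Q.lplp _
  ab := by
    rintro ⟨⟨l, i⟩, h⟩ ⟨⟨l', j⟩, h'⟩ h1
    obtain rfl : l = l' := h1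
    have e : ((⟨(l, i), h⟩ : Ed M) = ⟨(l, j), h'⟩) = (i = j) := by simp
    simp only [e]
    rcases l with ⟨s, x, h1⟩ | ⟨x, y, h1⟩ | ⟨x, y, h1⟩
    · cases i <;> cases j <;> simp [cc, Gr, πv, tg, lp, Q.pp, mul_sub, sub_mul]
    · simp [cc, Gr, πv, tg, lp, Q.ab]
    · cases i <;> cases j <;> simp [cc, Gr, πv, tg, lp, Q.pp, Q.p0]
  sum l := by
    rw [sumF hc l fun p => Q.cc p.1 p.2 true * Q.cc p.1 p.2 false]
    · rcases l with ⟨s, x, h1⟩ | ⟨x, y, h1⟩ | ⟨x, y, h1⟩
      · simp [cc, Gr, πv, tg, lp, Q.pp, mul_sub, sub_mul, srcC]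
      · exact Q.sum x y
      · simp [cc, Gr, πv, tg, lp, Q.pp, Q.p0, srcC]
    · intro i hi
      rcases l with ⟨s, x, h1⟩ | ⟨x, y, h1⟩ | ⟨x, y, h1⟩
      · exact absurd hi h1
      · simp [cc, Q.al0 hi]
      · have : Q.cc (.two x y h1) i false = Q.p i (tg (.two x y h1) i).2.2 := rfl
        rw [this, hi, Q.p0, mul_zero]

end PF

section Back
variable {hc : Con M} {B : Type v} [Ring B] (C : CK (Gr hc) B)

noncomputable def cx (l : Cl M) (i t : Bool) : B :=
  if h : (tg l i).2.2 ≠ 0 then C.c (⟨(l, i), h⟩, t) else 0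

noncomputable def lx (t : Bool × Bool × M) : B := if h : t.2.2 ≠ 0 then C.π (.lo t h) else 0

lemma cx_of {l : Cl M} {i : Bool} (h : (tg l i).2.2 ≠ 0) (t : Bool) :
    cx C l i t = C.c (⟨(l, i), h⟩, t) := dif_pos h

lemma lx_ca (l : Cl M) (i : Bool) : lx C (tg l i) * cx C l i false = cx C l i false := by
  unfold lx cx; split_ifs with h
  · exact C.πc (⟨(l, i), h⟩, false)
  · simp

lemma cb_lx (l : Cl M) (i : Bool) : cx C l i true * lx C (tg l i) = cx C l i true := by
  unfold lx cx; split_ifs with h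
  · exact C.cπ (⟨(l, i), h⟩, true)
  · simp

lemma ca_π (l : Cl M) (i : Bool) : cx C l i false * C.π (srcC l) = cx C l i false := by
  unfold cx; split_ifs with h
  · exact C.cπ (⟨(l, i), h⟩, false)
  · simp

lemma π_cb (l : Cl M) (i : Bool) : C.π (srcC l) * cx C l i true = cx C l i true := by
  unfold cx; split_ifs with h
  · exact C.πc (⟨(l, i), h⟩, true)
  · simp

lemma ca_cb (l : Cl M) (i j : Bool) :
    cx C l j false * cx C l i true = if i = j then lx C (tg l i) else 0 := by
  by_cases h : (tg l i).2.2 ≠ 0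
  · by_cases h' : (tg l j).2.2 ≠ 0
    · rw [cx_of C h, cx_of C h', C.ab ⟨(l, i), h⟩ ⟨(l, j), h'⟩ rfl, lx, dif_pos h]
      have e : ((⟨(l, i), h⟩ : Ed M) = ⟨(l, j), h'⟩) = (i = j) := by simp
      simp only [e]
      rfl
    · rw [cx, dif_neg h', zero_mul, if_neg (by rintro rfl; exact h' h)]
  · rw [lx, dif_neg h, cx.eq_1 C l i, dif_neg h]; simp

lemma cb_ca (l : Cl M) : cx C l false true * cx C l false false +
    cx C l true true * cx C l true false = C.π (srcC l) := by
  rw [← sumF hc l (fun p => cx C p.1 p.2 true * cx C p.1 p.2 false)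
    fun i hi => by simp [cx, hi]]
  exact (Finset.sum_congr rfl fun e _ => by rw [cx_of C e.2, cx_of C e.2]).trans (C.sum l)

noncomputable def UD (t s : Bool) (x : M) : B :=
  if h : x ≠ 0 then cx C (.st s x h) false t else 0

lemma DU (s : Bool) (x : M) : UD C false s x * UD C true s x = lx C (s, false, x) := by
  unfold UD; split_ifs with h
  · exact (ca_cb C _ _ _).trans (if_pos rfl)
  · simp [lx, not_not.1 h]

lemma Ul (s : Bool) (x : M) : UD C true s x * lx C (s, false, x) = UD C true s x := by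
  unfold UD; split_ifs with h
  · exact cb_lx C (.st s x h) false
  · simp

lemma lD (s : Bool) (x : M) : lx C (s, false, x) * UD C false s x = UD C false s x := by
  unfold UD; split_ifs with h
  · exact lx_ca C (.st s x h) false
  · simp

lemma two_ba (x y : M) (h : ¬(x = 0 ∧ y = 0)) :
    cx C (.two x y h) false true * cx C (.two x y h) false false = C.π (.s x y h) := by
  have := cb_ca C (.two x y h)
  rwa [cx.eq_1 C _ true false, dif_neg (by simp [tg]), mul_zero, add_zero] at this

lemma two_ab (x y : M) (h : ¬(x = 0 ∧ y = 0)) :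
    cx C (.two x y h) false false * cx C (.two x y h) false true = lx C (false, false, x + y) :=
  (ca_cb C _ _ _).trans (if_pos rfl)

/-- from the star down and up to s -/
noncomputable def toS (x y : M) (h : ¬(x = 0 ∧ y = 0)) : B :=
  cx C (.two x y h) false true * UD C false false (x + y)

noncomputable def frS (x y : M) (h : ¬(x = 0 ∧ y = 0)) : B :=
  UD C true false (x + y) * cx C (.two x y h) false false

lemma to_fr (x y : M) (h : ¬(x = 0 ∧ y = 0)) : toS C x y h * frS C x y h = C.π (.s x y h) := by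
  rw [toS, frS, mul_assoc, ← mul_assoc (UD C false _ _), DU, ← mul_assoc,
    show _ * lx C (false, false, x + y) = _ from cb_lx C (.two x y h) false, two_ba]

lemma fr_to (x y : M) (h : ¬(x = 0 ∧ y = 0)) : frS C x y h * toS C x y h =
    UD C true false (x + y) * UD C false false (x + y) := by
  rw [toS, frS, mul_assoc, ← mul_assoc (cx C _ _ _), two_ab, lD]

lemma fr_π (x y : M) (h : ¬(x = 0 ∧ y = 0)) : frS C x y h * C.π (.s x y h) = frS C x y h := by
  rw [frS, mul_assoc, show _ * C.π (.s x y h) = _ from ca_π C (.two x y h) false]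

lemma π_to (x y : M) (h : ¬(x = 0 ∧ y = 0)) : C.π (.s x y h) * toS C x y h = toS C x y h := by
  rw [toS, ← mul_assoc, show C.π (.s x y h) * _ = _ from π_cb C (.two x y h) false]

noncomputable def back : PF M B where
  p s x := UD C true s x * UD C false s x
  al i x y := if h : ¬(x = 0 ∧ y = 0) then
    UD C true i (cond i y x) * cx C (.one x y h) i false * toS C x y h else 0
  be i x y := if h : ¬(x = 0 ∧ y = 0) then
    frS C x y h * cx C (.one x y h) i true * UD C false i (cond i y x) else 0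
  pp s x := by rw [mul_assoc, ← mul_assoc (UD C false s x), DU, lD]
  p0 s := by simp [UD]
  ta i x y := by
    split_ifs with h
    · simp
    · simp only [← mul_assoc]
      rw [mul_assoc (UD C true _ _) (UD C false _ _), DU, Ul]
  az i x y := by
    split_ifs with h
    · simp
    · rw [← fr_to C x y h, mul_assoc, ← mul_assoc (toS C x y h), to_fr, π_to]
  zb i x y := by
    split_ifs with h
    · simp
    · rw [← fr_to C x y h]
      simp only [← mul_assoc]
      rw [mul_assoc (frS C x y h) (toS C x y h), to_fr, fr_π]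
  bt i x y := by
    split_ifs with h
    · simp
    · rw [mul_assoc, ← mul_assoc (UD C false _ _), DU, lD]
  ab i j x y := by
    by_cases h : x = 0 ∧ y = 0
    · obtain ⟨rfl, rfl⟩ := h
      simp [UD]
    · rw [dif_pos h, dif_pos h]
      simp only [← mul_assoc]
      rw [mul_assoc _ (toS C x y h), to_fr, mul_assoc _ _ (C.π _),
        show _ * C.π (.s x y h) = _ from ca_π C (.one x y h) j,
        mul_assoc _ (cx C _ _ _) (cx C _ _ _), ca_cb]
      split_ifs with e
      · subst e; rw [show _ * lx C (tg (.one x y h) i) = _ from Ul C i _]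
      · simp
  sum x y := by
    by_cases h : x = 0 ∧ y = 0
    · obtain ⟨rfl, rfl⟩ := h
      simp [UD]
    · have : ∀ i, frS C x y h * cx C (.one x y h) i true * UD C false i (cond i y x) *
          (UD C true i (cond i y x) * cx C (.one x y h) i false * toS C x y h) =
          frS C x y h * (cx C (.one x y h) i true * cx C (.one x y h) i false) * toS C x y h := by
        intro i
        simp only [← mul_assoc]
        rw [mul_assoc _ (UD C false _ _), DU, mul_assoc _ _ (lx C _),
          show _ * lx C (i, false, cond i y x) = _ from cb_lx C (.one x y h) i]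
      simp only [dif_pos h, this]
      rw [← add_mul, ← mul_add, cb_ca, show _ * C.π (srcC (.one x y h)) = _ from fr_π C x y h, fr_to]

noncomputable def κ (t : Bool) : Vx M → B
  | .st => C.π .st
  | .s x y h => cond t (frS C x y h) (toS C x y h)
  | .lo a h => cx C (.st a.1 a.2.2 h) a.2.1 t

lemma UD_of {x : M} (h : x ≠ 0) (t s : Bool) : UD C t s x = cx C (.st s x h) false t := dif_pos h

lemma lp_κ (a : Bool × Bool × M) (h : a.2.2 ≠ 0) :
    (back C).lp a * κ C true (.lo a h) = κ C true (.lo a h) := by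
  rcases a with ⟨s, _ | _, x⟩
  · show UD C true s x * UD C false s x * cx C (.st s x h) false true = cx C (.st s x h) false true
    rw [← UD_of C h, mul_assoc, DU, Ul]
  · show (1 - UD C true s x * UD C false s x) * cx C (.st s x h) true true = cx C (.st s x h) true true
    rw [sub_mul, mul_assoc, UD_of C h false, ca_cb]
    simp

lemma κ_π (w : Vx M) : κ C true w * C.π w = κ C true w := by
  rcases w with _ | ⟨x, y, h⟩ | ⟨a, h⟩
  · exact C.ππ _
  · exact fr_π C x y h
  · have := cb_lx C (.st a.1 a.2.2 h) a.2.1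
    rwa [lx, dif_pos (show (tg (.st a.1 a.2.2 h) a.2.1).2.2 ≠ 0 from h)] at this

lemma π_κ (w : Vx M) : (back C).πv w * κ C true w = κ C true w := by
  rcases w with _ | ⟨x, y, h⟩ | ⟨a, h⟩
  · exact one_mul _
  · show UD C true false (x + y) * UD C false false (x + y) * frS C x y h = frS C x y h
    rw [← fr_to C x y h, mul_assoc, to_fr, fr_π]
  · exact lp_κ C a h

lemma κκ (w : Vx M) : κ C false w * κ C true w = C.π w := by
  rcases w with _ | ⟨x, y, h⟩ | ⟨a, h⟩
  · exact C.ππ _
  · exact to_fr C x y h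
  · have := ca_cb C (.st a.1 a.2.2 h) a.2.1 a.2.1
    rwa [if_pos rfl, lx, dif_pos (show (tg (.st a.1 a.2.2 h) a.2.1).2.2 ≠ 0 from h)] at this

lemma c_κ (l : Ed M × Bool) : ((back C).ck hc).c l * κ C true ((Gr hc).ls l) =
    κ C true ((Gr hc).lt l) * C.c l := by
  rcases l with ⟨⟨⟨⟨s, x, h1⟩ | ⟨x, y, h1⟩ | ⟨x, y, h1⟩, i⟩, h⟩, _ | _⟩ <;> rw [← cx_of C h]
  · show (back C).lp (s, i, x) * C.π .st = cx C (.st s x h1) i true * cx C (.st s x h1) i false
    cases i
    · show UD C true s x * UD C false s x * _ = _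
      rw [UD_of C h1, UD_of C h1, mul_assoc, show _ * C.π .st = _ from ca_π C (.st s x h1) false]
    · show (1 - UD C true s x * UD C false s x) * _ = _
      rw [UD_of C h1, UD_of C h1, sub_mul, mul_assoc,
        show _ * C.π .st = _ from ca_π C (.st s x h1) false, one_mul, sub_eq_iff_eq_add']
      exact (cb_ca C (.st s x h1)).symm
  · exact (lp_κ C (s, i, x) h1).trans (π_cb C (.st s x h1) i).symm
  · show (back C).al i x y * frS C x y h1 = cx C (.st i (cond i y x) h) false true * _
    rw [← UD_of C (x := cond i y x) h]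
    simp only [back, dif_pos h1]
    rw [mul_assoc, to_fr, mul_assoc, show _ * C.π (.s x y h1) = _ from ca_π C (.one x y h1) i]
  · show (back C).be i x y * cx C (.st i (cond i y x) h) false true = frS C x y h1 * _
    rw [← UD_of C (x := cond i y x) h]
    simp only [back, dif_pos h1]
    rw [mul_assoc, DU, mul_assoc,
      show _ * lx C (i, false, cond i y x) = _ from cb_lx C (.one x y h1) i]
  · cases i
    · exact (π_κ C (.s x y h1)).trans (congrArg (· * _) (UD_of C h true false))
    · exact absurd rfl h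
  · cases i
    · refine (lp_κ C (false, false, x + y) h).trans ?_
      show cx C (.st false (x + y) h) false true = frS C x y h1 * _
      rw [frS, mul_assoc, two_ab, Ul, UD_of C (x := x + y) h]
    · exact absurd rfl h

end Back

lemma lift_lp {B : Type v} [Ring B] [Algebra ℚ B] (Q : PF M B) (t : Bool × Bool × M) :
    Q.lift ((can M).lp t) = Q.lp t := by
  rcases t with ⟨s, _ | _, x⟩ <;> simp [PF.lp]

lemma lift_π {B : Type v} [Ring B] [Algebra ℚ B] (Q : PF M B) (w : Vx M) :
    Q.lift ((can M).πv w) = Q.πv w := by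
  cases w <;> simp [PF.πv, lift_lp]

theorem nf (hc : Con M) : ((can M).ck hc).NF := by
  refine CK.NF_of _ fun v => ⟨(back ((Gr hc).model v)).lift, κ ((Gr hc).model v) true,
    κ ((Gr hc).model v) false, fun l => ?_, fun w => ?_, κκ _⟩
  · rw [← c_κ]
    congr 1
    rcases l with ⟨⟨⟨⟨s, x, h1⟩ | ⟨x, y, h1⟩ | ⟨x, y, h1⟩, i⟩, h⟩, _ | _⟩ <;>
      simp [PF.ck, PF.cc, lift_lp]
  · rw [κ_π]
    exact (congrArg (· * _) (lift_π _ w)).trans (π_κ _ w)

theorem exh (hc : Con M) : ((can M).ck hc).Exh := by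
  let C := (can M).ck hc
  let R : Vx M → Vx M → AA M → Prop := fun w w' c => ∀ v t, (∃ n, t ∈ C.D v 0 w n) →
    ∃ n, c * t ∈ C.D v 0 w' n
  have Rm : ∀ {w w' w'' c c'}, R w' w'' c' → R w w' c → R w w'' (c' * c) :=
    fun h1 h2 v t ht => by rw [mul_assoc]; exact h1 v _ (h2 v t ht)
  have Rl : ∀ l, R ((Gr hc).ls l) ((Gr hc).lt l) (C.c l) := fun l v t ⟨n, hn⟩ => ⟨_, C.L1 hn⟩
  have R0 : ∀ w w', R w w' 0 := fun _ _ v t _ => ⟨0, by simp⟩
  have u1 : ∀ a h, R (.lo a h) .st ((can M).lp a) := fun a h =>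
    Rl (⟨(.st a.1 a.2.2 h, a.2.1), h⟩, true)
  have d1 : ∀ a h, R .st (.lo a h) ((can M).lp a) := fun a h =>
    Rl (⟨(.st a.1 a.2.2 h, a.2.1), h⟩, false)
  have uu : ∀ w, R w .st (C.π w) ∧ R .st w (C.π w) := by
    rintro (_ | ⟨x, y, h⟩ | ⟨a, h⟩)
    · exact ⟨fun v t ht => by simpa [C, PF.ck, PF.πv] using ht,
        fun v t ht => by simpa [C, PF.ck, PF.πv] using ht⟩
    · have z : x + y ≠ 0 := fun e => h (hc _ _ e)
      rw [← C.ππ]
      exact ⟨Rm (u1 (false, false, x + y) z) (Rl (⟨(.two x y h, false), z⟩, false)),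
        Rm (Rl (⟨(.two x y h, false), z⟩, true)) (d1 (false, false, x + y) z)⟩
    · exact ⟨u1 a h, d1 a h⟩
  have all : ∀ u, R .st .st u := by
    intro u
    obtain ⟨a, rfl⟩ := RingQuot.mkAlgHom_surjective ℚ (Rel M) u
    induction a using FreeAlgebra.induction with
    | grade0 r =>
      intro v t ⟨n, hn⟩
      rw [AlgHom.commutes, ← Algebra.smul_def]
      exact ⟨n, Submodule.smul_mem _ _ hn⟩
    | grade1 g =>
      rcases g with ⟨s, x⟩ | ⟨i, x, y⟩ | ⟨i, x, y⟩
      · show R _ _ ((can M).p s x)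
        by_cases h : x = 0
        · rw [h, PF.p0]; exact R0 _ _
        · rw [← PF.pp]; exact Rm (u1 (s, false, x) h) (d1 (s, false, x) h)
      · show R _ _ ((can M).al i x y)
        by_cases h : cond i y x = 0
        · rw [PF.al0 _ h]; exact R0 _ _
        · have h1 : ¬(x = 0 ∧ y = 0) := by rintro ⟨rfl, rfl⟩; simp at h
          rw [← PF.ta, ← PF.az]
          exact Rm (u1 (i, false, _) h) (Rm (Rl (⟨(.one x y h1, i), h⟩, false)) (uu (.s x y h1)).2)
      · show R _ _ ((can M).be i x y)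
        by_cases h : cond i y x = 0
        · rw [← PF.bt, h, PF.p0, mul_zero]; exact R0 _ _
        · have h1 : ¬(x = 0 ∧ y = 0) := by rintro ⟨rfl, rfl⟩; simp at h
          rw [← PF.zb, ← PF.bt]
          exact Rm (uu (.s x y h1)).1 (Rm (Rl (⟨(.one x y h1, i), h⟩, true)) (d1 (i, false, _) h))
    | mul a b ha hb => rw [map_mul]; exact Rm ha hb
    | add a b ha hb =>
      intro v t ht
      obtain ⟨n, hn⟩ := ha v t ht
      obtain ⟨m, hm⟩ := hb v t ht
      rw [map_add, add_mul]
      exact ⟨n + m, add_mem (C.D_mono (by omega) hn) (C.D_mono (by omega) hm)⟩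
  intro v w u
  have := Rm (Rm (uu w).2 (all u)) (uu v).1 v _ ⟨0, C.π_D le_rfl⟩
  rwa [mul_assoc, C.ππ] at this

end Pool.Agent.H.MP_85b181_al
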