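import Pool.Agent.H.MP_85b181_al.H

set_option autoImplicit false

namespace Pool.Agent.H.MP_85b181_al

open scoped Classical

universe u v

section
variable {A : Type v} [NonUnitalRing A] {J K I : Type} [Fintype J] [Fintype K] [Fintype I]

def Eqv (e : Matrix J J A) (f : Matrix K K A) : Prop :=
  ∃ (P : Matrix J K A) (Q : Matrix K J A), P * Q = e ∧ Q * P = f

lemma Eqv.symm {e : Matrix J J A} {f : Matrix K K A} (h : Eqv e f) : Eqv f e :=
  let ⟨P, Q, a, b⟩ := h; ⟨Q, P, b, a⟩

lemma Eqv.trans {e : Matrix J J A} {f : Matrix K K A} {g : Matrix I I A} (h : Eqv e f)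
    (h' : Eqv f g) (he : e * e = e) (hg : g * g = g) : Eqv e g := by
  obtain ⟨P, Q, rfl, rfl⟩ := h
  obtain ⟨P', Q', a, rfl⟩ := h'
  refine ⟨P * P', Q' * Q, ?_, ?_⟩
  · rw [Matrix.mul_assoc, ← Matrix.mul_assoc P', a, ← he]; simp only [Matrix.mul_assoc]
  · rw [Matrix.mul_assoc, ← Matrix.mul_assoc Q, ← a, ← hg]; simp only [Matrix.mul_assoc]

lemma Eqv.map {B : Type v} [NonUnitalRing B] (φ : A →ₙ+* B) {e : Matrix J J A} {f : Matrix K K A}
    (h : Eqv e f) : Eqv (e.map φ) (f.map φ) := by
  obtain ⟨P, Q, rfl, rfl⟩ := h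
  exact ⟨P.map φ, Q.map φ, Matrix.map_mul.symm, Matrix.map_mul.symm⟩

end

variable {M : Type u} [AddCommMonoid M]

noncomputable def pm (z : M) : Matrix Unit Unit (AA M) := fun _ _ => (can M).p false z

lemma pm_pm (z : M) : pm z * pm z = pm z := by
  ext; simp [pm, Matrix.mul_apply, PF.pp]

lemma swp (w : M) : (can M).be true 0 w * (can M).al true 0 w = (can M).p false w := by
  have := (can M).sum 0 w
  rwa [(can M).al0 (i := false) rfl, mul_zero, zero_add, zero_add] at this

lemma comb (z w : M) : ∃ a0 a1 b0 b1 : AA M, a0 * b0 = (can M).p false z ∧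
    a1 * b1 = (can M).p false w ∧ a0 * b1 = 0 ∧ a1 * b0 = 0 ∧
    b0 * (can M).p false z * a0 + b1 * (can M).p false w * a1 = (can M).p false (z + w) := by
  set Q := can M
  have e1 := Q.ab true true
  have e2 := Q.ab true false z w
  have e3 := Q.ab false true z w
  have e4 := Q.bt true
  have e5 := Q.az true 0 w
  simp only [cond_true, if_true, zero_add] at e1 e4 e5
  refine ⟨Q.al false z w, Q.be true 0 w * Q.al true z w, Q.be false z w,
    Q.be true z w * Q.al true 0 w, Q.ab false false z w, ?_, ?_, ?_, ?_⟩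
  · rw [mul_assoc, ← mul_assoc (Q.al _ _ _), e1, ← mul_assoc, e4, swp]
  · rw [← mul_assoc, e2]; simp
  · rw [mul_assoc, e3]; simp
  · rw [show _ * Q.p false z = _ from Q.bt false z w, mul_assoc _ _ (Q.p false w), e5, mul_assoc,
      ← mul_assoc (Q.al _ _ _), e1, ← mul_assoc, e4, Q.sum]

lemma diag {J : Type} (π : J → AA M) (hπ : ∀ j, π j * π j = π j)
    (h : ∀ j, ∃ z a b, a * b = π j ∧ b * a = (can M).p false z) (s : Finset J) :
    ∃ (z : M) (a b : J → AA M), (∀ i ∈ s, ∀ j ∈ s, a i * b j = if i = j then π i else 0) ∧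
      ∑ j ∈ s, b j * a j = (can M).p false z := by
  induction s using Finset.induction_on with
  | empty => exact ⟨0, 0, 0, by simp, by simp [PF.p0]⟩
  | insert j s hj ih =>
    obtain ⟨z, a, b, h1, h2⟩ := ih
    obtain ⟨w, a', b', h3, h4⟩ := h j
    obtain ⟨a0, a1, b0, b1, c1, c2, c3, c4, c5⟩ := comb z w
    have ne : ∀ i ∈ s, i ≠ j := fun i hi e => hj (e ▸ hi)
    refine ⟨z + w, fun i => if i = j then a' * a1 else a i * a0,
      fun i => if i = j then b1 * b' else b0 * b i, fun i hi k hk => ?_, ?_⟩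
    · dsimp only
      replace hi := Finset.mem_insert.1 hi
      replace hk := Finset.mem_insert.1 hk
      rcases hi with rfl | hi <;> rcases hk with e | hk
      · subst e
        simp only [if_true]
        rw [mul_assoc, ← mul_assoc a1, c2, ← h4, ← hπ, ← h3]; simp only [mul_assoc]
      · rw [if_pos rfl, if_neg (ne k hk), if_neg (ne k hk).symm, mul_assoc, ← mul_assoc a1, c4]
        simp
      · subst e
        rw [if_pos rfl, if_neg (ne i hi), if_neg (ne i hi), mul_assoc, ← mul_assoc a0, c3]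
        simp
      · rw [if_neg (ne i hi), if_neg (ne k hk), mul_assoc, ← mul_assoc a0, c1, ← h2,
          Finset.sum_mul, Finset.mul_sum, Finset.sum_eq_single_of_mem i hi fun l hl hli => by
            rw [mul_assoc, ← mul_assoc, h1 i hi l hl, if_neg hli.symm, zero_mul],
          mul_assoc, ← mul_assoc, h1 i hi i hi, h1 i hi k hk, if_pos rfl]
        split_ifs <;> simp [hπ]
    · dsimp only
      rw [Finset.sum_insert hj, Finset.sum_congr rfl fun i hi => by
        rw [if_neg (ne i hi), if_neg (ne i hi)], if_pos rfl, if_pos rfl, ← c5, ← h2, ← h4,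
        add_comm, Finset.mul_sum, Finset.sum_mul]
      simp only [mul_assoc]

lemma Eqv_add {J K : Type} [Fintype J] [Fintype K] {e : Matrix J J (AA M)} {f : Matrix K K (AA M)}
    {z w : M} (h1 : Eqv e (pm z)) (h2 : Eqv f (pm w)) (he : e * e = e) (hf : f * f = f) :
    Eqv (Matrix.fromBlocks e 0 0 f) (pm (z + w)) := by
  obtain ⟨a0, a1, b0, b1, c1, c2, c3, c4, c5⟩ := comb z w
  have a : Eqv (Matrix.fromBlocks e 0 0 f) (Matrix.fromBlocks (pm z) 0 0 (pm w)) := by
    obtain ⟨P, Q, rfl, a⟩ := h1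
    obtain ⟨P', Q', rfl, b⟩ := h2
    exact ⟨Matrix.fromBlocks P 0 0 P', Matrix.fromBlocks Q 0 0 Q',
      by simp [Matrix.fromBlocks_multiply], by simp [Matrix.fromBlocks_multiply, a, b]⟩
  refine a.trans ⟨fun i _ => Sum.elim (fun _ => (can M).p false z * a0)
    (fun _ => (can M).p false w * a1) i, fun _ i => Sum.elim (fun _ => b0) (fun _ => b1) i, ?_, ?_⟩
    (by simp [Matrix.fromBlocks_multiply, he, hf]) (pm_pm _)
  · ext (i | i) (j | j) <;> simp [Matrix.mul_apply, mul_assoc, c1, c2, c3, c4, pm, PF.pp]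
  · ext; simp [Matrix.mul_apply, pm, ← c5, mul_assoc]

def zer (M : Type u) [AddCommMonoid M] : PF M ℚ where
  p _ _ := 0
  al _ _ _ := 0
  be _ _ _ := 0
  pp := by simp
  p0 := by simp
  ta := by simp
  az := by simp
  zb := by simp
  bt := by simp
  ab := by simp
  sum := by simp

noncomputable def χ (M : Type u) [AddCommMonoid M] : AA M →ₐ[ℚ] ℚ := (zer M).lift

theorem exist (hc : Con M) {K : Type} [Fintype K] (e : Matrix K K (AA M)) (hee : e * e = e)
    (h0 : ∀ i j, χ M (e i j) = 0) : ∃ z, Eqv e (pm z) := by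
  obtain ⟨J, _, y, P, Q, h1, h2, h3⟩ := CK.std (nf hc) (exh hc) (st := .st) rfl rfl e hee
  obtain ⟨z, a, b, c1, c2⟩ := diag (fun j => (can M).πv (y j)) (fun j => ((can M).ck hc).ππ _)
    (fun j => by
      have : χ M ((can M).πv (y j)) = 0 := by
        have := h2 j j
        rw [if_pos rfl, ← h3] at this
        refine (congrArg (χ M) this).symm.trans ?_
        simp [Matrix.mul_apply, map_sum, h0]
      rw [χ, lift_π] at this
      rcases hy : y j with _ | ⟨x, x', h⟩ | ⟨⟨s, _ | _, x⟩, h⟩ <;> rw [hy] at this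
      · simp [PF.πv] at this
      · exact ⟨_, _, _, PF.pp _ _ _, PF.pp _ _ _⟩
      · cases s
        · exact ⟨_, _, _, PF.pp _ _ _, PF.pp _ _ _⟩
        · exact ⟨x, _, _, (can M).ab true true 0 x, swp x⟩
      · simp [PF.πv, PF.lp, zer] at this) Finset.univ
  refine ⟨z, Eqv.trans ⟨P, Q, h1, rfl⟩ ⟨fun i _ => a i, fun _ i => b i, ?_, ?_⟩ hee (pm_pm z)⟩
  · ext i j
    rw [h2]
    refine Eq.trans ?_ (c1 i (by simp) j (by simp))
    simp [Matrix.mul_apply]
  · ext; simpa [Matrix.mul_apply, pm] using c2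

def δt (t : Bool × Bool × M) : WithTop M := cond t.2.1 ⊤ t.2.2

def δ : Vx M → WithTop M
  | .st => ⊤
  | .s x y _ => (x + y : M)
  | .lo t _ => δt t

theorem unique (hc : Con M) {z w : M} (h : Eqv (pm z) (pm w)) : z = w := by
  have zero : ∀ {w : M}, Eqv (pm 0) (pm w) → w = 0 := by
    rintro w ⟨P, Q, a, b⟩
    by_contra hw
    have : pm w = 0 := by
      rw [← pm_pm, ← b, Matrix.mul_assoc, ← Matrix.mul_assoc P, a,
        show pm (0 : M) = 0 from funext fun _ => funext fun _ => PF.p0 _ _]
      simp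
    exact CK.π_ne (nf hc) (.lo (false, false, w) hw) (congrFun (congrFun this ()) ())
  by_cases hz : z = 0
  · subst hz; exact (zero h).symm
  by_cases hw : w = 0
  · subst hw; exact zero h.symm
  obtain ⟨P, Q, a, b⟩ := h
  have := CK.uniq (nf hc) (exh hc) (st := .st) rfl δ (fun l => by
      rw [show ∑ e ∈ (Gr hc).F l, δ ((Gr hc).r e) = _ from sumF hc l (fun p => δt (tg p.1 p.2)) (by
        intro i hi
        rcases l with ⟨s, x, h1⟩ | ⟨x, y, h1⟩ | ⟨x, y, h1⟩
        · exact absurd hi h1
        · exact congrArg WithTop.some hi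
        · exact congrArg WithTop.some hi)]
      rcases l with ⟨s, x, h1⟩ | ⟨x, y, h1⟩ | ⟨x, y, h1⟩ <;> simp [Gr, srcC, δ, δt, tg])
    (a := .lo (false, false, z) hz) (b := .lo (false, false, w) hw) rfl rfl
    (p := P () ()) (q := Q () ())
    (Eq.trans (by simp [Matrix.mul_apply]) (congrFun (congrFun a ()) ()))
    (Eq.trans (by simp [Matrix.mul_apply]) (congrFun (congrFun b ()) ()))
  simpa [δ, δt] using this

variable {N : Type u} [AddCommMonoid N]

noncomputable def push (f : M →+ N) : PF M (AA N) where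
  p s x := (can N).p s (f x)
  al i x y := (can N).al i (f x) (f y)
  be i x y := (can N).be i (f x) (f y)
  pp s x := PF.pp _ _ _
  p0 s := by rw [map_zero, PF.p0]
  ta i x y := by rw [Bool.apply_cond f, PF.ta]
  az i x y := by rw [map_add, PF.az]
  zb i x y := by rw [map_add, PF.zb]
  bt i x y := by rw [Bool.apply_cond f, PF.bt]
  ab i j x y := by rw [Bool.apply_cond f, PF.ab]
  sum x y := by rw [map_add, PF.sum]

noncomputable def R (M : Type u) [AddCommMonoid M] : NonUnitalSubring (AA M) where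
  carrier := {a | χ M a = 0}
  zero_mem' := map_zero _
  add_mem' := fun {a b} ha hb => by
    change χ M _ = 0 at *; rw [map_add, ha, hb, add_zero]
  neg_mem' := fun {a} ha => by
    change χ M _ = 0 at *; rw [map_neg, ha, neg_zero]
  mul_mem' := fun {a b} ha hb => by
    change χ M _ = 0 at *; rw [map_mul, ha, zero_mul]

lemma χ_push (f : M →+ N) (a : AA M) : χ N ((push f).lift a) = χ M a :=
  DFunLike.congr_fun (AA_ext (f := (χ N).comp (push f).lift) (g := χ M)
    (by simp [χ, push, zer]) (by simp [χ, push, zer]) (by simp [χ, push, zer])) a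

noncomputable def Fm (f : M →+ N) : R M →ₙ+* R N where
  toFun a := ⟨(push f).lift a, (χ_push f a).trans a.2⟩
  map_zero' := Subtype.ext (map_zero _)
  map_add' a b := Subtype.ext (map_add _ a.1 b.1)
  map_mul' a b := Subtype.ext (map_mul _ a.1 b.1)

lemma Fm_id : Fm (AddMonoidHom.id M) = NonUnitalRingHom.id (R M) := by
  ext a
  exact DFunLike.congr_fun (AA_ext (f := (push (AddMonoidHom.id M)).lift) (g := AlgHom.id ℚ _)
    (by simp [push]) (by simp [push]) (by simp [push])) a.1

lemma Fm_comp {P : Type u} [AddCommMonoid P] (f : M →+ N) (g : N →+ P) :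
    Fm (g.comp f) = (Fm g).comp (Fm f) := by
  ext a
  exact DFunLike.congr_fun (AA_ext (f := (push (g.comp f)).lift)
    (g := (push g).lift.comp (push f).lift)
    (by simp [push]) (by simp [push]) (by simp [push])) a.1

noncomputable def up {J K : Type} (e : Matrix J K (R M)) : Matrix J K (AA M) :=
  e.map (NonUnitalSubringClass.subtype (R M))

lemma up_inj {J K : Type} {e f : Matrix J K (R M)} (h : up e = up f) : e = f := by
  ext i j; exact congrFun (congrFun h i) j

lemma up_mul {J K I : Type} [Fintype K] (e : Matrix J K (R M)) (f : Matrix K I (R M)) :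
    up (e * f) = up e * up f := Matrix.map_mul

lemma Eqv_down {J K : Type} [Fintype J] [Fintype K] {e : Matrix J J (R M)} {f : Matrix K K (R M)}
    (he : e * e = e) (hf : f * f = f) (h : Eqv (up e) (up f)) : Eqv e f := by
  obtain ⟨P, Q, a, b⟩ := h
  have he' : up e * up e = up e := by rw [← up_mul, he]
  have hf' : up f * up f = up f := by rw [← up_mul, hf]
  have z : ∀ i j, χ M (up e i j) = 0 := fun i j => (e i j).2
  let P' : Matrix J K (R M) := fun i j => ⟨(up e * P) i j, by
    change χ M _ = 0; simp [Matrix.mul_apply, map_sum, z]⟩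
  let Q' : Matrix K J (R M) := fun i j => ⟨(Q * up e) i j, by
    change χ M _ = 0; simp [Matrix.mul_apply, map_sum, z]⟩
  have p1 : up P' = up e * P := rfl
  have q1 : up Q' = Q * up e := rfl
  refine ⟨P', Q', up_inj ?_, up_inj ?_⟩
  · rw [up_mul, p1, q1, Matrix.mul_assoc, ← Matrix.mul_assoc P, a, he', he']
  · rw [up_mul, p1, q1, Matrix.mul_assoc, ← Matrix.mul_assoc (up e), he', ← hf', ← a, ← b]
    simp only [Matrix.mul_assoc]

noncomputable def cls {K : Type} [Fintype K] (e : Matrix K K (R M)) : M :=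
  Classical.epsilon fun z => Eqv (up e) (pm z)

lemma cls_spec (hc : Con M) {K : Type} [Fintype K] {e : Matrix K K (R M)} (he : e * e = e) :
    Eqv (up e) (pm (cls e)) :=
  Classical.epsilon_spec (exist hc (up e) (by rw [← up_mul, he]) fun i j => (e i j).2)

lemma cls_eq (hc : Con M) {K : Type} [Fintype K] {e : Matrix K K (R M)} (he : e * e = e) {z : M}
    (h : Eqv (up e) (pm z)) : cls e = z :=
  unique hc ((cls_spec hc he).symm.trans h (pm_pm _) (pm_pm _))

end Pool.Agent.H.MP_85b181_al
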